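import Pool.Agent.P.MP_d66c6d_pr.A.Iface

/-! Step BAS of the carpet project. -/

namespace Pool.Agent.P.MP_d66c6d_pr

open MeasureTheory ProbabilityTheory Set Metric Filter Topology
open scoped ENNReal

theorem p_BAS (hJOR : S_JOR) :
    S_BAS := by
  intro ν κ θ Ω _ P Γ hΓ hD
  have hopen : ∀ᵐ ω ∂P, ∀ V ∈ Γ ω, IsOpen V := hΓ.2.1.mono fun ω h V hV => (hJOR V (h V hV)).1
  refine ⟨hopen.mono fun ω h => ⟨isCompact_firstCarpet fun V hV => h V hV.1, ?_⟩, ?_⟩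
  · rintro z ⟨V, hV, hz⟩
    exact hV.2.2.1 hz.1
  obtain ⟨a, ha, -⟩ := hD
  obtain ⟨h0, -, h1⟩ := ha 1 one_pos
  have hne : P {ω | (firstCarpet (Γ ω)).Nonempty} ≠ 0 := by
    refine (lt_of_lt_of_le (by simp) (h1.trans (measure_mono fun ω hω => ?_))).ne'
    by_contra hn
    have he : firstCarpet (Γ ω) = ∅ := not_nonempty_iff_eq_empty.1 hn
    have h2 : ENNReal.ofReal (a 1) ≤ ⨆ x ∈ firstCarpet (Γ ω), ⨆ y ∈ firstCarpet (Γ ω),
        mfpp 1 (firstCarpet (Γ ω)) x y := hω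
    rw [he] at h2
    simp only [mem_empty_iff_false, not_false_eq_true, iSup_neg, iSup_bot, le_bot_iff] at h2
    exact (ENNReal.ofReal_pos.2 h0).ne' h2
  obtain ⟨n, hn⟩ : ∃ n : ℕ, P {ω | ∃ V, IsFirst (Γ ω) V ∧
      ball 0 (1 / ((n : ℝ) + 2)) ⊆ V} ≠ 0 := by
    by_contra h
    push Not at h
    apply hne
    refine measure_mono_null ?_ (measure_union_null (measure_iUnion_null h) (ae_iff.1 hopen))
    rintro ω ⟨z, V, hV, -⟩
    by_cases ho : ∀ V ∈ Γ ω, IsOpen V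
    · obtain ⟨s, hs, hs'⟩ := Metric.isOpen_iff.1 (ho V hV.1) 0 hV.2.1
      obtain ⟨n, hn⟩ := exists_nat_gt (1 / s)
      refine Or.inl (mem_iUnion.2 ⟨n, V, hV, (ball_subset_ball ?_).trans hs'⟩)
      rw [div_lt_iff₀ hs] at hn
      rw [div_le_iff₀ (by positivity)]
      nlinarith
    · exact Or.inr ho
  exact ⟨_, ⟨by positivity,
    one_div_le_one_div_of_le (by norm_num) (by linarith [Nat.cast_nonneg (α := ℝ) n])⟩, hn⟩

end Pool.Agent.P.MP_d66c6d_pr
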