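import Pool.Agent.P.MP_d66c6d_pr.A.Iface
import Pool.Agent.P.MP_d66c6d_pr.Mfpp

/-! Step COV of the carpet project. -/

namespace Pool.Agent.P.MP_d66c6d_pr

open MeasureTheory ProbabilityTheory Set Metric Filter Topology
open scoped ENNReal

namespace CovA

theorem vol_ball (z : ℂ) {r : ℝ} (hr : 0 ≤ r) :
    volume (ball z r) = ENNReal.ofReal (Real.pi * r ^ 2) := by
  rw [Complex.volume_ball, ← ENNReal.ofReal_pow hr, mul_comm Real.pi,
    ENNReal.ofReal_mul (by positivity), ← NNReal.coe_real_pi, ENNReal.ofReal_coe_nnreal]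

theorem sum_le {ι : Type} (Z : Finset ι) {t v : ℝ} (ht : (Z.card : ℝ) ≤ t) (hv : 0 ≤ v) :
    ∑ _z ∈ Z, ENNReal.ofReal v ≤ ENNReal.ofReal (v * t) := by
  rw [← ENNReal.ofReal_sum_of_nonneg fun _ _ => hv, Finset.sum_const, nsmul_eq_mul, mul_comm]
  exact ENNReal.ofReal_le_ofReal (mul_le_mul_of_nonneg_left ht hv)

variable {ε t : ℝ} {A : Set ℂ}

theorem one (hε : 0 < ε) (h : Cov ε t A) :
    volume (thickening ε A) ≤ ENNReal.ofReal (13 * t * ε ^ 2) := by
  obtain ⟨Z, hZ, hA⟩ := h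
  have h1 : thickening ε A ⊆ ⋃ z ∈ Z, ball z (2 * ε) := fun w hw => by
    obtain ⟨x, hx, hw⟩ := mem_thickening_iff.1 hw
    obtain ⟨z, hz, hx⟩ := mem_iUnion₂.1 (hA hx)
    refine mem_iUnion₂.2 ⟨z, hz, ?_⟩
    rw [mem_ball] at hx ⊢
    linarith [dist_triangle w x z]
  refine (measure_mono h1).trans ((measure_biUnion_finset_le _ _).trans ?_)
  simp only [fun z => vol_ball z (show 0 ≤ 2 * ε by linarith)]
  refine (sum_le Z hZ (by positivity)).trans (ENNReal.ofReal_le_ofReal ?_)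
  have h0 : 0 ≤ t * ε ^ 2 := mul_nonneg ((Nat.cast_nonneg _).trans hZ) (by positivity)
  nlinarith [Real.pi_lt_d2]

theorem two (hε : 0 < ε) (ht : 0 ≤ t)
    (h : volume (thickening ε A) ≤ ENNReal.ofReal (t * ε ^ 2)) : Cov ε (2 * t) A := by
  classical
  by_contra hn
  have h1 : ∀ n : ℕ, (n : ℝ) ≤ 2 * t + 1 → ∃ Z : Finset ℂ, Z.card = n ∧ (∀ z ∈ Z, z ∈ A) ∧
      (Z : Set ℂ).Pairwise fun z w => ε ≤ dist z w := fun n => by
    induction n with
    | zero => exact fun _ => ⟨∅, rfl, by simp, by simp⟩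
    | succ n ih =>
      intro hn'
      rw [Nat.cast_succ] at hn'
      obtain ⟨Z, h2, h3, h4⟩ := ih (by linarith)
      obtain ⟨x, hx, hx'⟩ := not_subset.1 fun e => hn ⟨Z, by rw [h2]; linarith, e⟩
      have h5 : ∀ z ∈ Z, ε ≤ dist x z := fun z hz =>
        not_lt.1 fun e => hx' (mem_iUnion₂.2 ⟨z, hz, e⟩)
      have h6 : x ∉ Z := fun e => by have := h5 x e; rw [dist_self] at this; linarith
      refine ⟨insert x Z, by rw [Finset.card_insert_of_notMem h6, h2], fun z hz => ?_, ?_⟩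
      · rcases Finset.mem_insert.1 hz with rfl | e
        exacts [hx, h3 z e]
      · rw [Finset.coe_insert]
        exact h4.insert fun z hz _ => ⟨h5 z hz, dist_comm x z ▸ h5 z hz⟩
  obtain ⟨Z, h2, h3, h4⟩ := h1 (⌊2 * t⌋₊ + 1) (by
    rw [Nat.cast_succ]; linarith [Nat.floor_le (show 0 ≤ 2 * t by linarith)])
  have h5 : 2 * t < Z.card := by rw [h2, Nat.cast_succ]; exact Nat.lt_floor_add_one _
  have h6 : (⋃ z ∈ Z, ball z (ε / 2)) ⊆ thickening ε A := iUnion₂_subset fun z hz w hw =>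
    mem_thickening_iff.2 ⟨z, h3 z hz, by rw [mem_ball] at hw; linarith⟩
  have h7 := (measure_mono h6).trans h
  rw [measure_biUnion_finset (h4.mono' fun z w e => ball_disjoint_ball (by linarith))
    fun _ _ => measurableSet_ball] at h7
  simp only [fun z => vol_ball z (show 0 ≤ ε / 2 by linarith)] at h7
  rw [← ENNReal.ofReal_sum_of_nonneg fun _ _ => by positivity, Finset.sum_const, nsmul_eq_mul,
    ENNReal.ofReal_le_ofReal_iff (by positivity)] at h7
  have h8 : (Z.card : ℝ) * Real.pi / 4 ≤ t :=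
    le_of_mul_le_mul_right (a := ε ^ 2) (by linarith) (by positivity)
  nlinarith [Real.pi_gt_three]

theorem disc (hε : 0 < ε) (z : ℂ) {R : ℝ} (hR : 1 ≤ R) :
    Cov ε (26 * R ^ 2) (closedBall z (R * ε)) := by
  rw [show 26 * R ^ 2 = 2 * (13 * R ^ 2) by ring]
  refine two hε (by positivity) ?_
  have h1 : thickening ε (closedBall z (R * ε)) ⊆ ball z (2 * R * ε) := fun w hw => by
    obtain ⟨x, hx, hw⟩ := mem_thickening_iff.1 hw
    rw [mem_closedBall] at hx
    rw [mem_ball]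
    nlinarith [dist_triangle w x z]
  refine (measure_mono h1).trans ?_
  rw [vol_ball z (by positivity)]
  have h0 : 0 ≤ R ^ 2 * ε ^ 2 := by positivity
  exact ENNReal.ofReal_le_ofReal (by nlinarith [Real.pi_lt_d2])

theorem discs (hε : 0 < ε) {R : ℝ} (hR : 1 ≤ R) {Z : Finset ℂ} (hZ : (Z.card : ℝ) ≤ t)
    (hA : A ⊆ ⋃ z ∈ Z, closedBall z (R * ε)) : Cov ε (26 * R ^ 2 * t) A := by
  classical
  choose F h1 h2 using fun z => disc hε z hR
  refine ⟨Z.biUnion F, ?_, fun w hw => ?_⟩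
  · calc _ ≤ ((∑ z ∈ Z, (F z).card : ℕ) : ℝ) := Nat.cast_le.2 Finset.card_biUnion_le
      _ ≤ ∑ _z ∈ Z, 26 * R ^ 2 := by rw [Nat.cast_sum]; exact Finset.sum_le_sum fun z _ => h1 z
      _ ≤ _ := by
        rw [Finset.sum_const, nsmul_eq_mul, mul_comm]
        exact mul_le_mul_of_nonneg_left hZ (by positivity)
  · obtain ⟨z, hz, hw⟩ := mem_iUnion₂.1 (hA hw)
    obtain ⟨u, hu, hw⟩ := mem_iUnion₂.1 (h2 z hw)
    exact mem_iUnion₂.2 ⟨u, Finset.mem_biUnion.2 ⟨z, hz, hu⟩, hw⟩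

theorem sim {a : ℂ} (c : ℂ) (ha : a ≠ 0) (h : Cov ε t A) :
    Cov (‖a‖ * ε) t ((fun z => a * z + c) '' A) := by
  classical
  obtain ⟨Z, hZ, hA⟩ := h
  refine ⟨Z.image fun z => a * z + c, (Nat.cast_le.2 Finset.card_image_le).trans hZ, ?_⟩
  rintro _ ⟨w, hw, rfl⟩
  obtain ⟨z, hz, hw⟩ := mem_iUnion₂.1 (hA hw)
  refine mem_iUnion₂.2 ⟨_, Finset.mem_image_of_mem _ hz, ?_⟩
  rw [mem_ball, dist_eq_norm] at hw ⊢
  rw [add_sub_add_right_eq_sub, ← mul_sub, norm_mul]
  exact mul_lt_mul_of_pos_left hw (norm_pos_iff.2 ha)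

theorem six (hε : 0 < ε) (hc : IsPreconnected A) (h : Cov ε t A) {x y : ℂ} (hx : x ∈ A)
    (hy : y ∈ A) : dist x y ≤ 2 * ε * t := by
  obtain ⟨Z, hZ, hA⟩ := h
  have h1 : Icc (dist x x) (dist x y) ⊆ ⋃ z ∈ Z, ball (dist x z) ε := fun r hr => by
    obtain ⟨w, hw, rfl⟩ := hc.intermediate_value hx hy
      (continuous_const.dist continuous_id).continuousOn hr
    obtain ⟨z, hz, hw⟩ := mem_iUnion₂.1 (hA hw)
    exact mem_iUnion₂.2 ⟨z, hz, (dist_dist_dist_le_right x w z).trans_lt hw⟩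
  have h2 := (measure_mono (μ := volume) h1).trans (measure_biUnion_finset_le _ _)
  simp only [Real.volume_ball, Real.volume_Icc, dist_self, sub_zero] at h2
  have h3 := h2.trans (sum_le Z hZ (by positivity))
  rwa [ENNReal.ofReal_le_ofReal_iff
    (mul_nonneg (by positivity) ((Nat.cast_nonneg _).trans hZ))] at h3

theorem seven (hε : 0 < ε) (x y : ℂ) : Cov ε (dist x y / ε + 1) (segment ℝ x y) := by
  classical
  refine ⟨(Finset.range (⌊dist x y / ε⌋₊ + 1)).image
    fun k : ℕ => x + (k * ε / dist x y : ℝ) • (y - x), ?_, ?_⟩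
  · refine (Nat.cast_le.2 Finset.card_image_le).trans ?_
    rw [Finset.card_range, Nat.cast_succ]
    linarith [Nat.floor_le (show 0 ≤ dist x y / ε by positivity)]
  · rw [segment_eq_image']
    rintro _ ⟨s, ⟨h0, h1⟩, rfl⟩
    refine mem_iUnion₂.2 ⟨_, Finset.mem_image_of_mem _ (Finset.mem_range.2 (Nat.lt_succ_of_le
      (Nat.floor_le_floor (a := s * dist x y / ε) ?_))), ?_⟩
    · exact div_le_div_of_nonneg_right (mul_le_of_le_one_left dist_nonneg h1) hε.le
    · rw [mem_ball, dist_eq_norm, add_sub_add_left_eq_sub, ← sub_smul, norm_smul,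
        ← dist_eq_norm y x, dist_comm y x, Real.norm_eq_abs]
      refine ((congrArg _ (abs_of_nonneg dist_nonneg).symm).trans (abs_mul _ _).symm).trans_lt ?_
      rcases (dist_nonneg (x := x) (y := y)).eq_or_lt with e | e
      · rw [← e, mul_zero, abs_zero]; exact hε
      · have h2 := Nat.floor_le (show 0 ≤ s * dist x y / ε by positivity)
        have h3 := Nat.lt_floor_add_one (s * dist x y / ε)
        rw [le_div_iff₀ hε] at h2
        rw [div_lt_iff₀ hε] at h3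
        rw [sub_mul, div_mul_cancel₀ _ e.ne', abs_lt]
        constructor <;> linarith

end CovA

theorem p_COV :
    S_COV := by
  intro ε t A hε
  refine ⟨CovA.one hε, CovA.two hε, fun M hM ⟨Z, hZ, hA⟩ => CovA.discs hε hM hZ
    (hA.trans (iUnion₂_mono fun _ _ => ball_subset_closedBall)), fun M hM ⟨Z, hZ, hA⟩ =>
    CovA.discs hε (by linarith) hZ ?_, fun a c ha => ⟨CovA.sim c ha, fun h => ?_⟩,
    fun hc h x hx y hy => CovA.six hε hc h hx hy, CovA.seven hε⟩
  · rw [cthickening_eq_biUnion_closedBall _ (by positivity)]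
    refine iUnion₂_subset fun x hx w hw => ?_
    obtain ⟨z, hz, hx⟩ := mem_iUnion₂.1 (closure_minimal
      (hA.trans (iUnion₂_mono fun _ _ => ball_subset_closedBall))
      (isClosed_biUnion_finset fun _ _ => isClosed_closedBall) hx)
    refine mem_iUnion₂.2 ⟨z, hz, ?_⟩
    rw [mem_closedBall] at hw hx ⊢
    linarith [dist_triangle w x z]
  · have := CovA.sim (-(a⁻¹ * c)) (inv_ne_zero ha) h
    rw [norm_inv, inv_mul_cancel_left₀ (norm_ne_zero_iff.2 ha), image_image] at this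
    simpa [mul_add, inv_mul_cancel_left₀ ha] using this

end Pool.Agent.P.MP_d66c6d_pr
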