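import Pool.Agent.P.MP_d66c6d_pr.A.Iface
import Pool.Agent.P.MP_d66c6d_pr.F.Iface
import Pool.Agent.P.MP_d66c6d_pr.S.Inv

/-! Step DAT of the carpet project. -/

namespace Pool.Agent.P.MP_d66c6d_pr

open MeasureTheory ProbabilityTheory Set Metric Filter Topology
open scoped ENNReal

namespace DatA

theorem dil_eq (r : ℝ) (X : Set ℂ) : dil r X = (fun z => (r : ℂ) * z + 0) '' X := by
  simp only [dil, add_zero]

theorem trace_map {a : ℂ} (ha : a ≠ 0) (N : Cfg Lp) :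
    trace '' (N.map (aff a 0)).pts = image (fun z => a * z + 0) '' (trace '' N.pts) := by
  simp only [Cfg.pts_map, image_image, trace_aff ha]

theorem good (hHOM : S_HOM) (hJOR : S_JOR) {r : ℝ} (hr : (r : ℂ) ≠ 0) {G T : Set (Set ℂ)}
    {V : Set ℂ} {a : ℝ → ℝ} {e : ℕ → ℝ} (h : Str2 G V T) (h1 : ∀ W ∈ G, IsJordan W)
    (h2 : XU (dil r (firstCarpet G)) a e) (h3 : XL (dil r (firstCarpet G)) a e) :
    QG ((fun z => (r : ℂ) * z + 0) '' V) (image (fun z => (r : ℂ) * z + 0) '' T) a e := by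
  obtain ⟨e1, e2⟩ := hHOM r 0 hr T V
  unfold QG
  rw [e1, e2]
  by_cases hV : V ∈ cleIn2 T V
  · exact Or.inl (mem_image_of_mem _ hV)
  · rw [h.2.2.2 hV, dil_eq] at h2 h3
    refine Or.inr ⟨?_, h2, h3⟩
    rintro _ ⟨W, hW, rfl⟩
    exact (hJOR W (h1 W (h.2.1 hW))).2.2.2.2.2.2.2.2.2 r 0 hr

theorem ball_sub {r ρ : ℝ} (hr : 0 < r) (h : r * ρ = 3) {V : Set ℂ} (hV : ball 0 ρ ⊆ V) :
    ball 0 3 ⊆ (fun z => (r : ℂ) * z + 0) '' V := fun z hz => by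
  have hc : (r : ℂ) ≠ 0 := by exact_mod_cast hr.ne'
  refine ⟨z / r, hV ?_, by field_simp; ring⟩
  rw [mem_ball_zero_iff] at hz ⊢
  rw [norm_div, Complex.norm_real, Real.norm_of_nonneg hr.le, div_lt_iff₀' hr, h]
  exact hz

theorem sub_ball {r R : ℝ} (hr : 0 < r) (h : r ≤ R) {V : Set ℂ} (hV : V ⊆ ball 0 1) :
    (fun z => (r : ℂ) * z + 0) '' V ⊆ ball 0 R := by
  rintro _ ⟨z, hz, rfl⟩
  have h1 := mem_ball_zero_iff.1 (hV hz)
  dsimp only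
  rw [mem_ball_zero_iff, add_zero, norm_mul, Complex.norm_real, Real.norm_of_nonneg hr.le]
  nlinarith

end DatA

open DatA in
theorem p_DAT (hBAS : S_BAS) (hTRF : S_TRF) (hRAT : S_RAT) (hHOM : S_HOM) (hJOR : S_JOR) (hPPO : S_PPO) (hMUK : S_MUK) :
    S_DAT := by
  rintro ν hν c θ ⟨Ω, _, _, P, Γ, κ, hκ, hC, hD⟩
  have := hC.1
  obtain ⟨hb, ρ, hρ, hpos⟩ := hBAS ν κ θ Ω P Γ hC hD
  obtain ⟨a, ha, hr⟩ := hRAT Ω P _ θ hD hb
  have hρ0 := hρ.1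
  have hr0 : 0 < 3 / ρ := by positivity
  have hrc : ((3 / ρ : ℝ) : ℂ) ≠ 0 := by exact_mod_cast hr0.ne'
  refine ⟨a, ha, 3 / ρ, ?_, fun R hR e he hlim => ?_⟩
  · rw [le_div_iff₀ hρ0]
    linarith [hρ.2]
  obtain ⟨φ, hφ, hX⟩ := hr (3 / ρ) hr0 e he hlim
  refine ⟨φ, hφ, fun τ hτ => ?_⟩
  obtain ⟨V, hV, h1, h2, h3⟩ := hTRF ν hν κ Ω P Γ hC ρ
    {G | (∀ W ∈ G, IsJordan W) ∧ XU (dil (3 / ρ) (firstCarpet G)) a (e ∘ φ) ∧
      XL (dil (3 / ρ) (firstCarpet G)) a (e ∘ φ)} (by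
      filter_upwards [hC.2.1, hX] with ω a1 a2
      refine ⟨fun W hW => a1 W hW.1, ?_⟩
      rw [firstCarpet_within]
      exact a2) hpos τ hτ
  refine ⟨(fun z => ((3 / ρ : ℝ) : ℂ) * z + 0) '' V, (hJOR V hV).2.2.2.2.2.2.2.2.2 _ 0 hrc,
    ball_sub hr0 (div_mul_cancel₀ _ hρ0.ne') h1, sub_ball hr0 hR (subset_closure.trans h2),
    fun E hE hQ => ?_⟩
  have hm : Measurable (aff ((3 / ρ : ℝ) : ℂ) 0) := (cont_aff _ _).measurable
  have := (hMUK ν hν).1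
  have e1 := (hPPO Lp (intensity κ • loopMeasure ν) inferInstance).2.2.1 Lp _ hm
  rw [Measure.map_smul, hν.map_aff hrc] at e1
  rw [← hκ, ← e1, Measure.map_apply (measurable_cfgMap hm) hE]
  refine h3 _ (measurable_cfgMap hm hE) fun N hN G hG hG' => hQ _ hN ?_
  rw [trace_map hrc]
  exact good hHOM hJOR hrc hG hG'.1 hG'.2.1 hG'.2.2

end Pool.Agent.P.MP_d66c6d_pr
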