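import Pool.Agent.P.MP_d66c6d_pr.A.Iface

/-! Step EXP of the carpet project. -/

namespace Pool.Agent.P.MP_d66c6d_pr

open MeasureTheory ProbabilityTheory Set Metric Filter Topology
open scoped ENNReal

namespace ExpA

theorem scale_ind {P : ℝ → Prop} {M e : ℝ} (hM : 1 < M) (he : 0 < e)
    (h0 : ∀ ε ∈ Ico (e / M) e, P ε) (h1 : ∀ ε ∈ Ioo 0 e, P ε → P (ε / M)) :
    ∀ ε ∈ Ioo 0 e, P ε := by
  have hM0 : 0 < M := one_pos.trans hM
  have key : ∀ k : ℕ, ∀ ε ∈ Ico (e / M ^ k) e, P ε := by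
    intro k
    induction k with
    | zero => exact fun ε h => absurd h.2 (not_lt.2 (by simpa using h.1))
    | succ k ih =>
      intro ε h
      by_cases hc : e / M ≤ ε
      · exact h0 ε ⟨hc, h.2⟩
      have h2 : ε * M < e := (lt_div_iff₀ hM0).1 (not_le.1 hc)
      have h3 : e / M ^ k ≤ ε * M := by
        have := h.1
        rwa [pow_succ, ← div_div, div_le_iff₀ hM0] at this
      have h4 := h1 _ ⟨lt_of_lt_of_le (by positivity) h3, h2⟩ (ih _ ⟨h3, h2⟩)
      rwa [mul_div_cancel_right₀ _ hM0.ne'] at h4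
  intro ε h
  obtain ⟨k, hk⟩ := pow_unbounded_of_one_lt (e / ε) hM
  refine key k ε ⟨?_, h.2⟩
  rw [div_lt_iff₀ h.1] at hk
  rw [div_le_iff₀ (by positivity), mul_comm]
  exact hk.le

theorem rpow_le_add {u v x : ℝ} (hu : 0 < u) (h1 : u ≤ x) (h2 : x ≤ v) (s : ℝ) :
    x ^ s ≤ u ^ s + v ^ s := by
  have hx := hu.trans_le h1
  have hv := hx.trans_le h2
  rcases le_total 0 s with h | h
  · exact (Real.rpow_le_rpow hx.le h2 h).trans (le_add_of_nonneg_left (by positivity))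
  · exact (Real.rpow_le_rpow_of_nonpos hu h1 h).trans (le_add_of_nonneg_right (by positivity))

end ExpA

open ExpA in
theorem p_EXP :
    S_EXP := by
  rintro a θ ⟨hpos, t, ht, hsc, e₁, he₁, hb⟩ δ hδ
  obtain ⟨M, hMt, hM⟩ := (((tendsto_rpow_atTop hδ).eventually_ge_atTop t).and
    (eventually_gt_atTop 1)).exists
  obtain ⟨e₀, he₀, hs⟩ := hsc M hM.le
  have hM0 : 0 < M := one_pos.trans hM
  have he : 0 < min e₀ e₁ := lt_min he₀ he₁
  set e := min e₀ e₁
  have heM : 0 < e / M := by positivity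
  set K₁ := (e / M) ^ (-(θ - δ)) + e ^ (-(θ - δ))
  set K₂ := (e / M) ^ (θ + δ - 2) + e ^ (θ + δ - 2)
  have hK₁ : 0 < K₁ := by positivity
  have hK₂ : 0 < K₂ := by positivity
  have ht0 : 0 < t := one_pos.trans_le ht
  have hC : 0 < t * (K₁ + K₂) := by positivity
  refine ⟨t * (K₁ + K₂), hC, e, he, scale_ind hM he (fun ε h => ?_) fun ε h hP => ?_⟩
  · have hε := heM.trans_le h.1
    have ha := hpos ε hε
    obtain ⟨b1, b2⟩ := hb ε ⟨hε, h.2.trans_le (min_le_right _ _)⟩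
    constructor
    · calc ε ^ (-(θ - δ)) ≤ K₁ * 1 := by rw [mul_one]; exact rpow_le_add heM h.1 h.2.le _
        _ ≤ (K₁ + K₂) * (t * a ε) := by gcongr; linarith
        _ = _ := by ring
    · have e1 : t / ε ^ 2 = t * ε ^ (θ + δ - 2) * ε ^ (-(θ + δ)) := by
        rw [mul_assoc, ← Real.rpow_add hε, show θ + δ - 2 + -(θ + δ) = -(2 : ℝ) by ring,
          Real.rpow_neg hε.le, Real.rpow_two, div_eq_mul_inv]
      rw [e1] at b2
      refine b2.trans ?_
      have := rpow_le_add heM h.1 h.2.le (θ + δ - 2)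
      gcongr
      linarith
  · generalize t * (K₁ + K₂) = C at hC hP
    obtain ⟨s1, s2⟩ := hs ε ⟨h.1, h.2.trans_le (min_le_left _ _)⟩
    have ha := hpos ε h.1
    have ha' := hpos (ε / M) (div_pos h.1 hM0)
    have hd : ∀ s : ℝ, (ε / M) ^ (-s) = ε ^ (-s) * M ^ s := fun s => by
      rw [Real.div_rpow h.1.le hM0.le, Real.rpow_neg hM0.le, div_inv_eq_mul]
    have hMd : 0 < M ^ δ := by positivity
    have hMθ : 0 < M ^ θ := by positivity
    rw [hd, hd, Real.rpow_sub hM0, Real.rpow_add hM0]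
    constructor
    · rw [← mul_div_assoc, div_le_iff₀ hMd]
      calc ε ^ (-(θ - δ)) * M ^ θ ≤ C * a ε * M ^ θ := by gcongr; exact hP.1
        _ = C * (M ^ θ * a ε) := by ring
        _ ≤ C * (t * a (ε / M)) := by gcongr
        _ ≤ C * (M ^ δ * a (ε / M)) := by gcongr
        _ = _ := by ring
    · calc a (ε / M) ≤ t * (M ^ θ * a ε) := s2
        _ ≤ M ^ δ * (M ^ θ * (C * ε ^ (-(θ + δ)))) := by gcongr; exact hP.2
        _ = _ := by ring

end Pool.Agent.P.MP_d66c6d_pr
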