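import Pool.Agent.P.MP_d66c6d_pr.A.Iface
import Pool.Agent.P.MP_d66c6d_pr.S.Surr

/-! Step HOM of the carpet project. -/

namespace Pool.Agent.P.MP_d66c6d_pr

open MeasureTheory ProbabilityTheory Set Metric Filter Topology
open scoped ENNReal

namespace HomA

variable (φ : ℂ ≃ₜ ℂ)

theorem meet (A B : Set ℂ) : (φ '' A ∩ φ '' B).Nonempty ↔ (A ∩ B).Nonempty := by
  rw [← image_inter φ.injective, image_nonempty]

theorem sub (A B : Set ℂ) : φ '' A ⊆ φ '' B ↔ A ⊆ B :=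
  image_subset_image_iff φ.injective

theorem cluster_image (S : Set (Set ℂ)) (K : Set ℂ) :
    cluster (image φ '' S) (φ '' K) = φ '' cluster S K := by
  apply Subset.antisymm
  · rintro z ⟨L, hL, hz⟩
    have : ∃ M, Relation.ReflTransGen (fun A B => B ∈ S ∧ (A ∩ B).Nonempty) K M ∧ L = φ '' M := by
      clear hz
      induction hL with
      | refl => exact ⟨K, .refl, rfl⟩
      | tail _ h ih =>
        obtain ⟨M, hM, rfl⟩ := ih
        obtain ⟨⟨N, hN, rfl⟩, h2⟩ := h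
        exact ⟨N, hM.tail ⟨hN, (meet φ _ _).1 h2⟩, rfl⟩
    obtain ⟨M, hM, rfl⟩ := this
    exact image_mono (subset_sUnion_of_mem hM) hz
  · rintro _ ⟨z, ⟨M, hM, hz⟩, rfl⟩
    refine ⟨φ '' M, ?_, mem_image_of_mem _ hz⟩
    clear hz
    induction hM with
    | refl => exact .refl
    | tail _ h ih => exact ih.tail ⟨mem_image_of_mem _ h.1, (meet φ _ _).2 h.2⟩

theorem sep_image (S : Set (Set ℂ)) (U : Set ℂ) :
    {K ∈ image φ '' S | K ⊆ φ '' U} = image φ '' {K ∈ S | K ⊆ U} := by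
  ext L
  constructor
  · rintro ⟨⟨K, hK, rfl⟩, h⟩
    exact ⟨K, ⟨hK, (sub φ _ _).1 h⟩, rfl⟩
  · rintro ⟨K, ⟨hK, h⟩, rfl⟩
    exact ⟨mem_image_of_mem _ hK, (sub φ _ _).2 h⟩

theorem outers_image (hf : ∀ A, fill (φ '' A) = φ '' fill A) (S : Set (Set ℂ)) (U : Set ℂ) :
    outers (image φ '' S) (φ '' U) = image φ '' outers S U := by
  have e : ∀ K, φ '' U ∩ interior (fill (closure
      (cluster {K ∈ image φ '' S | K ⊆ φ '' U} (φ '' K)))) =
      φ '' (U ∩ interior (fill (closure (cluster {K ∈ S | K ⊆ U} K)))) := fun K => by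
    rw [sep_image, cluster_image, ← φ.image_closure, hf, ← φ.image_interior,
      image_inter φ.injective]
  ext W
  constructor
  · rintro ⟨_, ⟨K, hK, rfl⟩, h, rfl⟩
    exact ⟨_, ⟨K, hK, (sub φ _ _).1 h, rfl⟩, (e K).symm⟩
  · rintro ⟨_, ⟨K, hK, h, rfl⟩, rfl⟩
    exact ⟨_, mem_image_of_mem _ hK, (sub φ _ _).2 h, (e K).symm⟩

theorem cle_image (hf : ∀ A, fill (φ '' A) = φ '' fill A) (S : Set (Set ℂ)) (U : Set ℂ) :
    cleIn2 (image φ '' S) (φ '' U) = image φ '' cleIn2 S U := by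
  unfold cleIn2
  rw [outers_image φ hf]
  ext W
  constructor
  · rintro ⟨⟨V, hV, rfl⟩, h⟩
    exact ⟨V, ⟨hV, fun W' h1 h2 =>
      (sub φ _ _).1 (h _ (mem_image_of_mem _ h1) ((meet φ _ _).2 h2))⟩, rfl⟩
  · rintro ⟨V, ⟨hV, h⟩, rfl⟩
    refine ⟨mem_image_of_mem _ hV, ?_⟩
    rintro _ ⟨W', h1, rfl⟩ h2
    exact (sub φ _ _).2 (h _ h1 ((meet φ _ _).1 h2))

theorem carp_image (hf : ∀ A, fill (φ '' A) = φ '' fill A) (S : Set (Set ℂ)) (U : Set ℂ) :
    carp (image φ '' S) (φ '' U) = φ '' carp S U := by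
  unfold carp
  rw [cle_image φ hf, image_sdiff φ.injective, φ.image_closure, image_sUnion]

end HomA

theorem p_HOM :
    S_HOM := by
  intro a c ha T V
  let φ : ℂ ≃ₜ ℂ := (Homeomorph.mulLeft₀ a ha).trans (Homeomorph.addRight c)
  have hf : ∀ A, fill (φ '' A) = φ '' fill A := fun A => by
    ext w
    obtain ⟨z, rfl⟩ := φ.surjective w
    rw [φ.injective.mem_set_image]
    exact fill_aff ha c A z
  exact ⟨HomA.cle_image φ hf T V, HomA.carp_image φ hf T V⟩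

end Pool.Agent.P.MP_d66c6d_pr
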