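import Pool.Agent.P.MP_d66c6d_pr.G.Defs
import Pool.Agent.P.MP_d66c6d_pr.F.Iface
import Pool.Agent.P.MP_d66c6d_pr.Nest

/-!
From the distance exponent of the whole-plane ensemble to data on one soup in a Jordan domain.
-/

namespace Pool.Agent.P.MP_d66c6d_pr

open MeasureTheory ProbabilityTheory Set Metric Filter Topology
open scoped ENNReal

/-- `V` is the first loop, it is of generation `k` and surrounds the disc of radius `ρ`. -/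
def Ek2 (S : ℕ → Set (Set ℂ)) (U : Set ℂ) (ρ : ℝ) (k : ℕ) (V : Set ℂ) : Prop :=
  V ∈ gen2 S U k ∧ 0 ∈ V ∧ closure V ⊆ ball 0 1 ∧ ball 0 ρ ⊆ V ∧
    ∀ j ≤ k, ∀ W ∈ gen2 S U j, 0 ∈ W → closure W ⊆ ball 0 1 → W ⊆ V

/-- `V` is the first loop of `G` and the next generation inside it comes from the soup `T`. -/
def Str2 (G : Set (Set ℂ)) (V : Set ℂ) (T : Set (Set ℂ)) : Prop :=
  IsFirst G V ∧ cleIn2 T V ⊆ G ∧ carp T V ⊆ firstCarpet G ∧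
    (V ∉ cleIn2 T V → firstCarpet G = carp T V)

-- deps:
/-- The tree structure of the nested ensemble. -/
def S_TREE : Prop :=
  (∀ (T : Set (Set ℂ)) (V : Set ℂ), ∀ W ∈ cleIn2 T V, W ⊆ surrounded T V ∧
    ∀ W' ∈ cleIn2 T V, (W ∩ W').Nonempty → W = W') ∧
  ∀ (S : ℕ → Set (Set ℂ)) (U : Set ℂ) (ρ : ℝ),
    (∀ S' k V, (∀ i ≤ k, S i = S' i) → Ek2 S U ρ k V → Ek2 S' U ρ k V) ∧
    (∀ V, IsFirst (nested2 S U) V → ball 0 ρ ⊆ V → ∃ k, Ek2 S U ρ k V) ∧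
    ∀ k V, Ek2 S U ρ k V → Str2 (within 1 (nested2 S U)) V (S (k + 1))

-- deps:
-- imports: Pool.Agent.P.MP_d66c6d_pr.S.Surr
/-- Elementary facts on Jordan domains. -/
def S_JOR : Prop := ∀ V : Set ℂ, IsJordan V →
  IsOpen V ∧ IsPreconnected V ∧ V.Nonempty ∧ IsCompact (closure V) ∧ interior (closure V) = V ∧
  (∀ a ∉ V, ∀ b ∉ V, JoinedIn Vᶜ a b) ∧
  (∀ a ∉ closure V, ∀ b ∉ closure V, JoinedIn (closure V)ᶜ a b) ∧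
  (∀ K ⊆ V, fill K ⊆ V) ∧ fill (closure V) = closure V ∧
  ∀ a c : ℂ, a ≠ 0 → IsJordan ((fun z => a * z + c) '' V)

-- deps: JOR
/-- The first carpet is compact and the first loop surrounds a disc with positive probability. -/
def S_BAS : Prop := ∀ (ν : Measure Br) (κ θ : ℝ) (Ω : Type) [MeasurableSpace Ω] (P : Measure Ω)
  (Γ : Ω → Set (Set ℂ)), IsCLE ν κ P Γ → IsDistExp P (fun ω => firstCarpet (Γ ω)) θ →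
  (∀ᵐ ω ∂P, IsCompact (firstCarpet (Γ ω)) ∧ firstCarpet (Γ ω) ⊆ ball 0 1) ∧
  ∃ ρ ∈ Ioc (0 : ℝ) (1 / 2), P {ω | ∃ V, IsFirst (Γ ω) V ∧ ball 0 ρ ⊆ V} ≠ 0

-- deps: TREE
/-- Transfer of almost sure properties to one soup in a deterministic domain. -/
def S_TRFO : Prop := ∀ (ν : Measure Br) (κ : ℝ) (Ω : Type) [MeasurableSpace Ω]
  [StandardBorelSpace Ω] (P : Measure Ω) (Γ : Ω → Set (Set ℂ)), IsCLE ν κ P Γ →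
  ∃ (Ω₀ : Type) (_ : MeasurableSpace Ω₀) (P₀ : Measure Ω₀) (N : Ω₀ → Set Lp),
    IsPPP P₀ (intensity κ • loopMeasure ν) N ∧ ∀ (ρ : ℝ) (𝒢 : Set (Set (Set ℂ))),
    (∀ᵐ ω ∂P, within 1 (Γ ω) ∈ 𝒢) → P {ω | ∃ V, IsFirst (Γ ω) V ∧ ball 0 ρ ⊆ V} ≠ 0 →
    ∀ τ : ℝ≥0∞, τ ≠ 0 → ∃ V, IsJordan V ∧ ball 0 ρ ⊆ V ∧ closure V ⊆ ball 0 1 ∧
      ∀ A : Set Ω₀, MeasurableSet A → (∀ ω ∈ A, ∀ G, Str2 G V (trace '' N ω) → G ∉ 𝒢) →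
        P₀ A ≤ τ

-- deps: TRFO TRANS MUK
/-- The same on the canonical space. -/
def S_TRF : Prop := ∀ ν : Measure Br, IsBridge ν → ∀ (κ : ℝ) (Ω : Type) [MeasurableSpace Ω]
  [StandardBorelSpace Ω] (P : Measure Ω) (Γ : Ω → Set (Set ℂ)), IsCLE ν κ P Γ →
  ∀ (ρ : ℝ) (𝒢 : Set (Set (Set ℂ))), (∀ᵐ ω ∂P, within 1 (Γ ω) ∈ 𝒢) →
    P {ω | ∃ V, IsFirst (Γ ω) V ∧ ball 0 ρ ⊆ V} ≠ 0 →
    ∀ τ : ℝ≥0∞, τ ≠ 0 → ∃ V, IsJordan V ∧ ball 0 ρ ⊆ V ∧ closure V ⊆ ball 0 1 ∧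
      ∀ E : Set (Cfg Lp), MeasurableSet E →
        (∀ N ∈ E, ∀ G, Str2 G V (trace '' N.pts) → G ∉ 𝒢) →
        PP (intensity κ • loopMeasure ν) E ≤ τ

-- deps:
-- imports: Pool.Agent.P.MP_d66c6d_pr.Mfpp
/-- Covering numbers and areas of neighbourhoods. -/
def S_COV : Prop := ∀ (ε t : ℝ) (A : Set ℂ), 0 < ε →
  (Cov ε t A → volume (thickening ε A) ≤ ENNReal.ofReal (13 * t * ε ^ 2)) ∧
  (0 ≤ t → volume (thickening ε A) ≤ ENNReal.ofReal (t * ε ^ 2) → Cov ε (2 * t) A) ∧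
  (∀ M : ℝ, 1 ≤ M → Cov (M * ε) t A → Cov ε (26 * M ^ 2 * t) A) ∧
  (∀ M : ℝ, 0 ≤ M → Cov ε t A → Cov ε (26 * (M + 1) ^ 2 * t) (cthickening (M * ε) A)) ∧
  (∀ a c : ℂ, a ≠ 0 → (Cov ε t A ↔ Cov (‖a‖ * ε) t ((fun z => a * z + c) '' A))) ∧
  (IsPreconnected A → Cov ε t A → ∀ x ∈ A, ∀ y ∈ A, dist x y ≤ 2 * ε * t) ∧
  ∀ x y : ℂ, Cov ε (dist x y / ε + 1) (segment ℝ x y)

-- deps: COV
-- imports: Pool.Agent.P.MP_d66c6d_pr.Mfpp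
/-- Uniform convergence to a compatible metric gives cheap short paths and expensive long paths. -/
def S_XG : Prop := ∀ (X : Set ℂ) (d : ℂ → ℂ → ℝ) (a : ℝ → ℝ) (e : ℕ → ℝ), IsCompact X →
  IsCompatMetric X d → (∀ j, 0 < e j ∧ 0 < a (e j)) →
  (∀ η > (0 : ℝ), ∃ j₀ : ℕ, ∀ j ≥ j₀, ∀ x ∈ X, ∀ y ∈ X,
    ENNReal.ofReal (a (e j) * (d x y - η)) ≤ mfpp (e j) X x y ∧
    mfpp (e j) X x y ≤ ENNReal.ofReal (a (e j) * (d x y + η))) →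
  XU X (fun ε => a ε / ε ^ 2) e ∧ XL X (fun ε => a ε / ε ^ 2) e

-- deps: XG
-- imports: Pool.Agent.P.MP_d66c6d_pr.Expo
/-- The normalisation, and almost sure subsequences. -/
def S_RAT : Prop := ∀ (Ω : Type) [MeasurableSpace Ω] (P : Measure Ω) [IsProbabilityMeasure P]
  (X : Ω → Set ℂ) (θ : ℝ), IsDistExp P X θ → (∀ᵐ ω ∂P, IsCompact (X ω) ∧ X ω ⊆ ball 0 1) →
  ∃ a : ℝ → ℝ, Nrm a θ ∧ ∀ r > (0 : ℝ), ∀ e : ℕ → ℝ, (∀ n, 0 < e n) → Tendsto e atTop (𝓝 0) →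
    ∃ φ : ℕ → ℕ, StrictMono φ ∧
      ∀ᵐ ω ∂P, XU (dil r (X ω)) a (e ∘ φ) ∧ XL (dil r (X ω)) a (e ∘ φ)

-- deps:
/-- Power bounds for the normalisation. -/
def S_EXP : Prop := ∀ (a : ℝ → ℝ) (θ : ℝ), Nrm a θ → ∀ δ > (0 : ℝ), ∃ C > (0 : ℝ),
  ∃ ε₀ > (0 : ℝ), ∀ ε ∈ Ioo 0 ε₀, ε ^ (-(θ - δ)) ≤ C * a ε ∧ a ε ≤ C * ε ^ (-(θ + δ))

-- deps:
-- imports: Pool.Agent.P.MP_d66c6d_pr.S.Surr
/-- Covariance of the ensemble in a domain under similarities. -/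
def S_HOM : Prop := ∀ (a c : ℂ), a ≠ 0 → ∀ (T : Set (Set ℂ)) (V : Set ℂ),
  cleIn2 (image (fun z => a * z + c) '' T) ((fun z => a * z + c) '' V) =
    image (fun z => a * z + c) '' cleIn2 T V ∧
  carp (image (fun z => a * z + c) '' T) ((fun z => a * z + c) '' V) =
    (fun z => a * z + c) '' carp T V

-- deps: BAS TRF RAT HOM JOR PPO MUK
-- imports: Pool.Agent.P.MP_d66c6d_pr.S.Inv
/-- The data of a level. -/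
def S_DAT : Prop := ∀ ν : Measure Br, IsBridge ν → ∀ c θ : ℝ, Lvl ν c θ →
  ∃ a : ℝ → ℝ, Nrm a θ ∧ ∃ R₀ : ℝ, 3 ≤ R₀ ∧ ∀ R ≥ R₀, Dat ν c a R

-- deps: BAS TRFO TREE
-- imports: Pool.Agent.P.MP_d66c6d_pr.Expo
/-- The limit of the exponent at small intensity. -/
def S_LIM : Prop := ∀ ν : Measure Br, IsBridge ν → ∀ Θ : ℝ → ℝ, AllL ν Θ →
  Tendsto Θ (𝓝[>] 0) (𝓝 1)

end Pool.Agent.P.MP_d66c6d_pr
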