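import Pool.Agent.P.MP_d66c6d_pr.A.Iface
import Pool.Agent.P.MP_d66c6d_pr.S.Surr

/-! Step JOR of the carpet project. -/

namespace Pool.Agent.P.MP_d66c6d_pr

open MeasureTheory ProbabilityTheory Set Metric Filter Topology
open scoped ENNReal

namespace JorA

theorem pc {I : Set ℝ} (hI : Convex ℝ I) (h2 : I.Nonempty) (h0 : ∀ t ∈ I, 0 < t) :
    IsPathConnected {z : ℂ | ‖z‖ ∈ I} := by
  have h := ((hI.isPathConnected h2).prod (isPathConnected_sphere (E := ℂ)
    (by rw [Complex.rank_real_complex]; exact Nat.one_lt_ofNat) 0 zero_le_one)).image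
    (f := fun p : ℝ × ℂ => p.1 • p.2) (by fun_prop)
  refine (Set.ext fun z => ⟨?_, fun hz => ?_⟩ : _ = {z : ℂ | ‖z‖ ∈ I}) ▸ h
  · rintro ⟨⟨t, u⟩, ⟨ht, hu⟩, rfl⟩
    have hu' : ‖u‖ = 1 := mem_sphere_zero_iff_norm.1 hu
    change ‖t • u‖ ∈ I
    rwa [norm_smul, hu', mul_one, Real.norm_of_nonneg (h0 t ht).le]
  · have hz0 := (h0 _ hz).ne'
    refine ⟨(‖z‖, ‖z‖⁻¹ • z), ⟨hz, mem_sphere_zero_iff_norm.2 ?_⟩, smul_inv_smul₀ hz0 z⟩
    change ‖‖z‖⁻¹ • z‖ = 1
    rw [norm_smul, norm_inv, norm_norm, inv_mul_cancel₀ hz0]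

theorem pc1 : IsPathConnected (ball (0 : ℂ) 1)ᶜ := by
  have h := pc (convex_Ici 1) nonempty_Ici fun t ht => one_pos.trans_le ht
  refine (Set.ext fun z => ?_ : _ = (ball (0 : ℂ) 1)ᶜ) ▸ h
  simp

theorem pc2 : IsPathConnected (closedBall (0 : ℂ) 1)ᶜ := by
  have h := pc (convex_Ioi 1) nonempty_Ioi fun t ht => one_pos.trans ht
  refine (Set.ext fun z => ?_ : _ = (closedBall (0 : ℂ) 1)ᶜ) ▸ h
  simp

theorem unb {K : Set ℂ} (hK : Bornology.IsBounded K) : ¬ Bornology.IsBounded Kᶜ := fun h =>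
  NormedSpace.unbounded_univ ℝ ℂ (union_compl_self K ▸ hK.union h)

theorem fill_sub {W K : Set ℂ} (hW : Bornology.IsBounded W) (hc : IsPathConnected Wᶜ)
    (h : K ⊆ W) : fill K ⊆ W := fun _ hz => by_contra fun hn =>
  not_mem_fill hc.isConnected.isPreconnected (disjoint_compl_left.mono_right h) hn (unb hW) hz

end JorA

theorem p_JOR :
    S_JOR := by
  rintro V ⟨φ, rfl⟩
  have e : closure (φ '' ball 0 1) = φ '' closedBall 0 1 := by
    rw [← φ.image_closure, closure_ball _ one_ne_zero]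
  have hc : IsCompact (φ '' closedBall 0 1) := (isCompact_closedBall _ _).image φ.continuous
  have c1 : IsPathConnected (φ '' ball 0 1)ᶜ := φ.image_compl _ ▸ JorA.pc1.image φ.continuous
  have c2 : IsPathConnected (φ '' closedBall 0 1)ᶜ := φ.image_compl _ ▸ JorA.pc2.image φ.continuous
  rw [e]
  refine ⟨φ.isOpenMap _ isOpen_ball, (convex_ball _ _).isPreconnected.image _
    φ.continuous.continuousOn, (nonempty_ball.2 one_pos).image _, hc, ?_,
    fun a ha b hb => c1.joinedIn a ha b hb, fun a ha b hb => c2.joinedIn a ha b hb,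
    fun K hK => JorA.fill_sub (hc.isBounded.subset (image_mono ball_subset_closedBall)) c1 hK,
    (JorA.fill_sub hc.isBounded c2 subset_rfl).antisymm (subset_fill _), fun a c ha =>
    ⟨φ.trans ((Homeomorph.mulLeft₀ a ha).trans (Homeomorph.addRight c)), ?_⟩⟩
  · rw [← φ.image_interior, interior_closedBall _ one_ne_zero]
  · rw [image_image]
    rfl

end Pool.Agent.P.MP_d66c6d_pr
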