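import Pool.Agent.P.MP_d66c6d_pr.A.Iface
import Pool.Agent.P.MP_d66c6d_pr.Expo

/-! Step LIM of the carpet project. -/

namespace Pool.Agent.P.MP_d66c6d_pr

open MeasureTheory ProbabilityTheory Set Metric Filter Topology
open scoped ENNReal

namespace LimA

theorem sub_carp (hTREE : S_TREE) {T : Set (Set ℂ)} {V : Set ℂ} {r : ℝ} (h1 : ball 0 r ⊆ V)
    (h2 : closure V ⊆ ball 0 1) : ball 0 r \ holes T ⊆ carp T V := by
  rintro z ⟨hz, hz'⟩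
  refine ⟨subset_closure (h1 hz), ?_⟩
  rintro ⟨W, hW, hzW⟩
  exact hz' (surrounded_sub_holes (subset_closure.trans h2) ((hTREE.1 T V W hW).1 hzW))

theorem bound (hBAS : S_BAS) (hTRFO : S_TRFO) (hTREE : S_TREE) {ν : Measure Br} (hν : IsBridge ν)
    {M : ℕ} (hM : 400 ≤ M) : ∃ α0 > (0 : ℝ), ∀ c θ : ℝ, c ≤ α0 → Lvl ν c θ →
      1 ≤ θ ∧ θ ≤ 1 + Real.log 6 / Real.log M := by
  obtain ⟨α0, hα0, hs⟩ := soup_good hν hM
  refine ⟨α0, hα0, fun c θ hc hL => ?_⟩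
  obtain ⟨Ω, _, _, P, Γ, κ, hκ, hΓ, hθ⟩ := hL
  have := hΓ.1
  obtain ⟨hcp, r, hr, hne⟩ := hBAS ν κ θ Ω P Γ hΓ hθ
  obtain ⟨Ω₀, _, P₀, N, hN, htr⟩ := hTRFO ν κ Ω P Γ hΓ
  have := hN.prob
  have hρ : 0 < r / 2 := half_pos hr.1
  obtain ⟨C, A, hA, hA0, hAC⟩ := hs _ (hκ.trans_le (ENNReal.ofReal_le_ofReal hc)) hN (r / 2) hρ
    (by linarith [hr.2])
  refine expo (r0 := r / 2 / 16) (ρ := r / 2) (C := C) hM hθ (hcp.mono fun ω h => h.1)
    (by positivity) hρ fun h0 => ?_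
  obtain ⟨V, -, h1, h2, h3⟩ := htr r {G | ¬ CheapPath M (r / 2 / 16) (r / 2) C (firstCarpet G)}
    (by
      rw [ae_iff]
      simpa only [mem_ofPred_eq, firstCarpet_within, not_not] using h0) hne (P₀ A / 2)
    (ENNReal.half_pos hA0).ne'
  refine absurd (h3 A hA fun ω hω G hG hn => hn ?_)
    (not_le.2 (ENNReal.half_lt_self hA0 (measure_ne_top _ _)))
  have e := hAC ω hω
  rw [mul_div_cancel₀ r two_ne_zero] at e
  exact e.mono ((sub_carp hTREE h1 h2).trans hG.2.2.1)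

end LimA

theorem p_LIM (hBAS : S_BAS) (hTRFO : S_TRFO) (hTREE : S_TREE) :
    S_LIM := by
  intro ν hν Θ hΘ
  refine Metric.tendsto_nhds.2 fun δ hδ => ?_
  have h1 : Tendsto (fun M : ℕ => Real.log 6 / Real.log M) atTop (𝓝 0) :=
    tendsto_const_nhds.div_atTop (Real.tendsto_log_atTop.comp tendsto_natCast_atTop_atTop)
  obtain ⟨M, hM, hMδ⟩ := ((eventually_ge_atTop 400).and (h1.eventually (gt_mem_nhds hδ))).exists
  obtain ⟨α0, hα0, hw⟩ := LimA.bound hBAS hTRFO hTREE hν hM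
  filter_upwards [Ioo_mem_nhdsGT hα0, Ioo_mem_nhdsGT (show (0 : ℝ) < 1 / 2 by norm_num)]
    with c hc hc'
  obtain ⟨h3, h4⟩ := hw c (Θ c) hc.2.le (hΘ c hc')
  rw [Real.dist_eq, abs_lt]
  constructor <;> linarith

end Pool.Agent.P.MP_d66c6d_pr
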