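import Pool.Agent.P.MP_d66c6d_pr.A.Iface
import Pool.Agent.P.MP_d66c6d_pr.Expo

/-! Step RAT of the carpet project. -/

namespace Pool.Agent.P.MP_d66c6d_pr

open MeasureTheory ProbabilityTheory Set Metric Filter Topology
open scoped ENNReal

namespace RatA

/-- The largest cost. -/
noncomputable def SS (X : Set ℂ) (ε : ℝ) : ℝ≥0∞ := ⨆ x ∈ X, ⨆ y ∈ X, mfpp ε X x y

/-- The costs are close to `A d`. -/
def Ok (X : Set ℂ) (d : ℂ → ℂ → ℝ) (ε A η : ℝ) : Prop :=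
  ∀ x ∈ X, ∀ y ∈ X, ENNReal.ofReal (A * (d x y - η)) ≤ mfpp ε X x y ∧
    mfpp ε X x y ≤ ENNReal.ofReal (A * (d x y + η))

/-- The largest cost is comparable to `A`. -/
def Tt (X : Set ℂ) (ε A t : ℝ) : Prop :=
  SS X ε ≤ ENNReal.ofReal (t * A) ∧ (X.Nontrivial → ENNReal.ofReal (A / t) ≤ SS X ε)

section det

variable {X : Set ℂ} {d : ℂ → ℂ → ℝ} {ε A η t : ℝ}

theorem le_SS {x y : ℂ} (hx : x ∈ X) (hy : y ∈ X) : mfpp ε X x y ≤ SS X ε :=
  le_iSup₂_of_le x hx (le_iSup₂_of_le y hy le_rfl)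

theorem SS_le {b : ℝ≥0∞} (h : ∀ x ∈ X, ∀ y ∈ X, mfpp ε X x y ≤ b) : SS X ε ≤ b :=
  iSup₂_le fun x hx => iSup₂_le (h x hx)

theorem Ok.mono {η' : ℝ} (h : Ok X d ε A η) (hA : 0 < A) (h' : η ≤ η') : Ok X d ε A η' :=
  fun x hx y hy => ⟨le_trans (ENNReal.ofReal_le_ofReal (by gcongr)) (h x hx y hy).1,
    le_trans (h x hx y hy).2 (ENNReal.ofReal_le_ofReal (by gcongr))⟩

theorem bdd (h : IsCompatMetric X d) (hX : IsCompact X) :
    ∃ K : ℝ, ∀ x ∈ X, ∀ y ∈ X, d x y ≤ K := by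
  rcases X.eq_empty_or_nonempty with rfl | ⟨w, hw⟩
  · exact ⟨0, by simp⟩
  have : ∃ K : ℝ, ∀ u ∈ X, d w u ≤ K := by
    refine hX.induction_on (p := fun S => ∃ K : ℝ, ∀ u ∈ S, d w u ≤ K) ⟨0, by simp⟩ ?_ ?_ ?_
    · rintro s t hst ⟨K, h1⟩
      exact ⟨K, fun u hu => h1 u (hst hu)⟩
    · rintro s t ⟨K, h1⟩ ⟨K', h2⟩
      refine ⟨max K K', ?_⟩
      rintro u (hu | hu)
      · exact (h1 u hu).trans (le_max_left _ _)
      · exact (h2 u hu).trans (le_max_right _ _)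
    · intro z hz
      obtain ⟨s, hs, h1⟩ := h.top z hz 1 one_pos
      refine ⟨X ∩ ball z s, inter_mem_nhdsWithin _ (ball_mem_nhds _ hs), d w z + 1,
        fun u hu => ?_⟩
      linarith [h.triangle w hw z hz u hu.1, (h1 u hu.1).1 (mem_ball'.1 hu.2)]
  obtain ⟨K, hK⟩ := this
  refine ⟨K + K, fun x hx y hy => ?_⟩
  linarith [h.triangle x hx w hw y hy, h.symm x hx w hw, hK x hx, hK y hy]

theorem pos (h : IsCompatMetric X d) (hX : X.Nontrivial) : ∃ x ∈ X, ∃ y ∈ X, 0 < d x y := by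
  obtain ⟨x, hx, y, hy, hxy⟩ := hX
  refine ⟨x, hx, y, hy, lt_of_le_of_ne ?_ fun k => hxy ((h.eq_zero x hx y hy).1 k.symm)⟩
  linarith [h.triangle x hx y hy x hx, h.symm x hx y hy, (h.eq_zero x hx x hx).2 rfl]

theorem compat_dil {d' : ℂ → ℂ → ℝ} {r σ : ℝ} (h : IsCompatMetric X d) (hr : 0 < r) (hσ : 0 < σ)
    (e : ∀ x ∈ X, ∀ y ∈ X, d' (r * x) (r * y) = σ * d x y) : IsCompatMetric (dil r X) d' := by
  have hc : (r : ℂ) ≠ 0 := by exact_mod_cast hr.ne'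
  refine ⟨?_, ?_, ?_, ?_⟩
  · rintro _ ⟨x, hx, rfl⟩ _ ⟨y, hy, rfl⟩
    rw [e x hx y hy, mul_eq_zero, or_iff_right hσ.ne', h.eq_zero x hx y hy, mul_right_inj' hc]
  · rintro _ ⟨x, hx, rfl⟩ _ ⟨y, hy, rfl⟩
    rw [e x hx y hy, e y hy x hx, h.symm x hx y hy]
  · rintro _ ⟨x, hx, rfl⟩ _ ⟨y, hy, rfl⟩ _ ⟨z, hz, rfl⟩
    rw [e x hx y hy, e y hy z hz, e x hx z hz, ← mul_add]
    exact mul_le_mul_of_nonneg_left (h.triangle x hx y hy z hz) hσ.le
  · rintro _ ⟨x, hx, rfl⟩ η hη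
    obtain ⟨s, hs, h1⟩ := h.top x hx (min (η / σ) (η / r)) (by positivity)
    refine ⟨min (r * s) (σ * s), by positivity, ?_⟩
    rintro _ ⟨y, hy, rfl⟩
    have e2 : dist ((r : ℂ) * x) (r * y) = r * dist x y := by
      rw [dist_eq_norm, dist_eq_norm, ← mul_sub, norm_mul, Complex.norm_real,
        Real.norm_of_nonneg hr.le]
    simp only [e x hx y hy, e2, lt_min_iff] at h1 ⊢
    constructor
    · intro k
      exact (lt_div_iff₀' hσ).1 ((h1 y hy).1 (lt_of_mul_lt_mul_left k.1 hr.le)).1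
    · intro k
      exact (lt_div_iff₀' hr).1 ((h1 y hy).2 (lt_of_mul_lt_mul_left k.2 hσ.le)).2

/-- Comparison of the normalisations at two scales. -/
theorem ratio {d' : ℂ → ℂ → ℝ} {M σ A' : ℝ} (hM : 0 < M) (hσ : 0 < σ) (hA : 0 < A) (hA' : 0 < A')
    (ht : 1 ≤ t) (hX : X.Nontrivial) (e : ∀ x ∈ X, ∀ y ∈ X, d' (M * x) (M * y) = σ * d x y)
    (h1 : Ok X d ε A (1 / (8 * t))) (h2 : Ok (dil M X) d' ε A (σ / (8 * t)))
    (k1 : Tt X ε A t) (k2 : Tt X (ε / M) A' t) :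
    σ * A ≤ 2 * t ^ 2 * (M ^ 2 * A') ∧ M ^ 2 * A' ≤ 2 * t ^ 2 * (σ * A) := by
  have ht0 : 0 < t := by linarith
  have h3 : ∀ x ∈ X, ∀ y ∈ X, ENNReal.ofReal (A * (σ * d x y - σ / (8 * t))) ≤
      ENNReal.ofReal (M ^ 2) * mfpp (ε / M) X x y ∧ ENNReal.ofReal (M ^ 2) * mfpp (ε / M) X x y ≤
      ENNReal.ofReal (A * (σ * d x y + σ / (8 * t))) := fun x hx y hy => by
    have := h2 _ ⟨x, hx, rfl⟩ _ ⟨y, hy, rfl⟩
    simp only [e x hx y hy, mfpp_dil hM] at this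
    exact this
  constructor
  · have m : SS X ε ≤ ENNReal.ofReal (M ^ 2 * (t * A') / σ + A / (4 * t)) := by
      refine SS_le fun x hx y hy => (h1 x hx y hy).2.trans (ENNReal.ofReal_le_ofReal ?_)
      have m1 := (h3 x hx y hy).1.trans (mul_le_mul_right ((le_SS hx hy).trans k2.1) _)
      rw [← ENNReal.ofReal_mul (by positivity),
        ENNReal.ofReal_le_ofReal_iff (by positivity)] at m1
      have m2 : A * (d x y - 1 / (8 * t)) ≤ M ^ 2 * (t * A') / σ := by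
        rw [le_div_iff₀ hσ]
        refine le_trans (le_of_eq ?_) m1
        ring
      have m3 : A * (d x y + 1 / (8 * t)) = A * (d x y - 1 / (8 * t)) + A / (4 * t) := by
        field_simp
        ring
      linarith
    have m1 := (ENNReal.ofReal_le_ofReal_iff (by positivity)).1 ((k1.2 hX).trans m)
    have m2 : A / t = A / (4 * t) + 3 / 4 * (A / t) := by
      field_simp
      ring
    have m3 : 1 / 2 * (A / t) ≤ M ^ 2 * (t * A') / σ := by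
      have : 0 < A / t := by positivity
      linarith
    rw [le_div_iff₀ hσ] at m3
    have m4 : σ * A = 2 * t * (1 / 2 * (A / t) * σ) := by field_simp
    rw [m4]
    refine (mul_le_mul_of_nonneg_left m3 (by positivity)).trans (le_of_eq ?_)
    ring
  · have m : SS X (ε / M) ≤ ENNReal.ofReal (2 * t * (σ * A) / M ^ 2) := by
      refine SS_le fun x hx y hy => ?_
      have m1 := (ENNReal.ofReal_le_ofReal_iff (by positivity)).1
        ((h1 x hx y hy).1.trans ((le_SS hx hy).trans k1.1))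
      have m2 : d x y - 1 / (8 * t) ≤ t := by
        rw [mul_comm t] at m1
        exact le_of_mul_le_mul_left m1 hA
      have m3 : 1 / (8 * t) ≤ 1 / 8 := one_div_le_one_div_of_le (by norm_num) (by linarith)
      have := ratio_up (x := 1) (u := 1) (g := 2 * t * (σ * A) / M ^ 2) (by positivity)
        (by positivity) (by simp) (h3 x hx y hy).2 (by
          have e1 : M ^ 2 * (2 * t * (σ * A) / M ^ 2 * 1) = A * σ * (2 * t) := by field_simp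
          have e2 : A * (σ * d x y + σ / (8 * t)) = A * σ * (d x y + 1 / (8 * t)) := by ring
          rw [e1, e2]
          gcongr
          linarith)
      rwa [mul_one] at this
    have m1 := (ENNReal.ofReal_le_ofReal_iff (by positivity)).1 ((k2.2 hX).trans m)
    rw [div_le_div_iff₀ ht0 (by positivity)] at m1
    linarith

/-- Absolute bounds for the normalisation. -/
theorem absb (hε : 0 < ε) (hε1 : ε < 1) (hA : 0 < A) (ht : 1 ≤ t) (hX : X.Nontrivial)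
    (hb : X ⊆ ball 0 1) (k : Tt X ε A t) : ε ^ 2 ≤ t * A ∧ A ≤ 16 * t := by
  have ht0 : 0 < t := by linarith
  have hp3 : (1 : ℝ≥0∞) ≤ NNReal.pi := by
    have := Real.pi_gt_three
    exact_mod_cast (show (1 : ℝ) ≤ NNReal.pi by rw [NNReal.coe_real_pi]; linarith)
  have hp4 : (NNReal.pi : ℝ≥0∞) ≤ 4 := by
    have := Real.pi_le_four
    exact_mod_cast (show (NNReal.pi : ℝ) ≤ 4 by rw [NNReal.coe_real_pi]; linarith)
  constructor
  · obtain ⟨x, hx⟩ := hX.nonempty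
    refine (ENNReal.ofReal_le_ofReal_iff (by positivity)).1
      (le_trans ?_ ((le_SS hx hx).trans k.1))
    refine le_iInf₂ fun γ _ => le_trans ?_
      (measure_mono (ball_subset_thickening (show x ∈ range γ from ⟨0, γ.source⟩) ε))
    rw [Complex.volume_ball, ENNReal.ofReal_pow hε.le]
    exact le_mul_of_one_le_right' hp3
  · have m : SS X ε ≤ ENNReal.ofReal 16 := by
      refine SS_le fun x hx y hy => ?_
      have m1 : mfpp ε X x y < ∞ := ((le_SS hx hy).trans k.1).trans_lt ENNReal.ofReal_lt_top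
      simp only [mfpp, iInf_lt_iff] at m1
      obtain ⟨γ, hγ, -⟩ := m1
      refine (mfpp_le γ hγ).trans ((measure_mono (t := ball 0 2) fun z hz => ?_).trans ?_)
      · obtain ⟨w, hw, h⟩ := mem_thickening_iff.1 hz
        have := mem_ball.1 (hb (hγ hw))
        exact mem_ball.2 (by linarith [dist_triangle z w 0])
      · rw [Complex.volume_ball]
        refine (mul_le_mul_right hp4 _).trans (le_of_eq ?_)
        norm_num
    have m1 := (ENNReal.ofReal_le_ofReal_iff (by norm_num)).1 ((k.2 hX).trans m)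
    rwa [div_le_iff₀ ht0] at m1

end det

theorem exists_seq {p : ℕ → ℝ → Prop} (h : ∀ n, ¬ ∃ ε₀ > (0 : ℝ), ∀ ε ∈ Ioo 0 ε₀, p n ε) :
    ∃ e : ℕ → ℝ, (∀ n, 0 < e n) ∧ Tendsto e atTop (𝓝 0) ∧ ∀ n, ¬ p n (e n) := by
  push Not at h
  choose e he hp using fun n : ℕ => h n (1 / ((n : ℝ) + 1)) (by positivity)
  exact ⟨e, fun n => (he n).1, squeeze_zero (fun n => (he n).1.le) (fun n => (he n).2.le)
    tendsto_one_div_add_atTop_nhds_zero_nat, hp⟩

variable {Ω : Type} [MeasurableSpace Ω] {P : Measure Ω} [IsProbabilityMeasure P]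
  {X : Ω → Set ℂ} {θ : ℝ} {a : ℝ → ℝ}

/-- Convergence along subsequences. -/
def Seq (P : Measure Ω) (X : Ω → Set ℂ) (θ : ℝ) (a : ℝ → ℝ) : Prop :=
  ∀ e : ℕ → ℝ, (∀ n, 0 < e n) → Tendsto e atTop (𝓝 0) →
    ∃ φ : ℕ → ℕ, StrictMono φ ∧ ∃ D : Set ℂ → ℂ → ℂ → ℝ,
      (∀ K : ℝ, NullMeasurableSet {ω | ∃ x ∈ X ω, ∃ y ∈ X ω, K < D (X ω) x y} P) ∧
      (∀ᵐ ω ∂P, IsCompatMetric (X ω) (D (X ω))) ∧
      ∀ r > (0 : ℝ),
        (∀ᵐ ω ∂P, ∀ x ∈ X ω, ∀ y ∈ X ω,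
          D (dil r (X ω)) (r * x) (r * y) = r ^ θ * D (X ω) x y) ∧
        ∀ η > (0 : ℝ), Tendsto (fun n => P {ω | ¬ Ok (dil r (X ω)) (D (dil r (X ω)))
          (e (φ n)) (a (e (φ n))) η}) atTop (𝓝 0)

theorem tight (ha : ∀ ε > (0 : ℝ), 0 < a ε) (h : Seq P X θ a) (hX : ∀ᵐ ω ∂P, IsCompact (X ω))
    {δ : ℝ≥0∞} (hδ : 0 < δ) :
    ∃ t : ℝ, 1 ≤ t ∧ ∃ ε₀ > (0 : ℝ), ∀ ε ∈ Ioo 0 ε₀, P {ω | ¬ Tt (X ω) ε (a ε) t} ≤ δ := by
  by_contra hc
  obtain ⟨e, e0, e1, hp⟩ := exists_seq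
    (p := fun n ε => P {ω | ¬ Tt (X ω) ε (a ε) ((n : ℝ) + 1)} ≤ δ)
    fun n k => hc ⟨(n : ℝ) + 1, by simp, k⟩
  obtain ⟨φ, hφ, D, hm, hmet, hr⟩ := h e e0 e1
  set G : ℝ → Set Ω := fun K => {ω | ∃ x ∈ X ω, ∃ y ∈ X ω, K < D (X ω) x y} with hG
  have hGm : ∀ K K', K ≤ K' → G K' ⊆ G K :=
    fun K K' k ω ⟨x, hx, y, hy, h1⟩ => ⟨x, hx, y, hy, k.trans_lt h1⟩
  set B : ℕ → Set Ω := fun n => G ((n : ℝ) + 1) ∪ (G 0 \ G (1 / ((n : ℝ) + 1))) with hB
  have hB0 : Tendsto (P ∘ B) atTop (𝓝 0) := by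
    have h1 := tendsto_measure_iInter_atTop (μ := P) (s := B)
      (fun n => (hm _).union ((hm _).diff (hm _)))
      (fun n m hnm => union_subset_union (hGm _ _ (by simpa using hnm))
        (sdiff_subset_sdiff_right (hGm _ _ (Nat.one_div_le_one_div hnm)))) ⟨0, measure_ne_top _ _⟩
    have h2 : P (⋂ n, B n) = 0 := by
      refine measure_mono_null ?_ (ae_iff.1 (hX.and hmet))
      rintro ω hω ⟨h3, h4⟩
      obtain ⟨K, hK⟩ := bdd h4 h3
      obtain ⟨n, hn⟩ := exists_nat_ge K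
      have h5 : ∀ m ≥ n, ω ∈ G 0 \ G (1 / ((m : ℝ) + 1)) := fun m hm => by
        refine (mem_iInter.1 hω m).resolve_left ?_
        rintro ⟨x, hx, y, hy, h6⟩
        have : (n : ℝ) ≤ m := Nat.cast_le.2 hm
        linarith [hK x hx y hy]
      obtain ⟨x, hx, y, hy, h6⟩ := (h5 n le_rfl).1
      obtain ⟨m, hm⟩ := exists_nat_one_div_lt h6
      exact (h5 (max n m) (le_max_left _ _)).2
        ⟨x, hx, y, hy, (Nat.one_div_le_one_div (le_max_right _ _)).trans_lt hm⟩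
    rwa [h2] at h1
  obtain ⟨K, hK⟩ := (ENNReal.tendsto_nhds_zero.1 hB0 (δ / 2) (ENNReal.half_pos hδ.ne')).exists
  have h1 := ENNReal.tendsto_nhds_zero.1 ((hr 1 one_pos).2 (1 / (2 * ((K : ℝ) + 1)))
    (by positivity)) (δ / 2) (ENNReal.half_pos hδ.ne')
  obtain ⟨n, hn, hn'⟩ := (h1.and (eventually_ge_atTop (2 * K + 1))).exists
  simp only [dil_one] at hn
  refine hp (φ n) ?_
  rw [← ENNReal.add_halves δ]
  refine le_trans (le_trans (measure_mono_ae ?_) (measure_union_le _ _)) (add_le_add hK hn)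
  filter_upwards [hmet] with ω h4 hbad
  by_contra hno
  have n1 : ω ∉ G ((K : ℝ) + 1) := fun k => hno (Or.inl (Or.inl k))
  have n2 : ω ∉ G 0 \ G (1 / ((K : ℝ) + 1)) := fun k => hno (Or.inl (Or.inr k))
  have n3 : Ok _ _ _ _ _ := not_not.1 fun k => hno (Or.inr k)
  have hA := ha _ (e0 (φ n))
  have hφn : 2 * (K : ℝ) + 1 ≤ φ n := by exact_mod_cast hn'.trans (hφ.id_le n)
  have hK0 : (0 : ℝ) ≤ K := Nat.cast_nonneg K
  refine hbad ⟨SS_le fun x hx y hy => (n3 x hx y hy).2.trans (ENNReal.ofReal_le_ofReal ?_),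
    fun hX => ?_⟩
  · have m1 : D (X ω) x y ≤ K + 1 := not_lt.1 fun k => n1 ⟨x, hx, y, hy, k⟩
    have m2 : 1 / (2 * ((K : ℝ) + 1)) ≤ 1 / 1 := one_div_le_one_div_of_le one_pos (by linarith)
    rw [mul_comm]
    exact mul_le_mul_of_nonneg_right (by linarith) hA.le
  · obtain ⟨x, hx, y, hy, m1⟩ : ω ∈ G (1 / ((K : ℝ) + 1)) :=
      not_not.1 fun k => n2 ⟨pos h4 hX, k⟩
    refine le_trans (ENNReal.ofReal_le_ofReal ?_) ((n3 x hx y hy).1.trans (le_SS hx hy))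
    have m2 : 1 / ((φ n : ℝ) + 1) ≤ 1 / (2 * ((K : ℝ) + 1)) :=
      one_div_le_one_div_of_le (by positivity) (by linarith)
    have m3 : 1 / ((K : ℝ) + 1) = 1 / (2 * ((K : ℝ) + 1)) + 1 / (2 * ((K : ℝ) + 1)) := by
      field_simp
      ring
    rw [div_eq_mul_one_div]
    gcongr
    linarith

omit [IsProbabilityMeasure P] in
theorem half (ha : ∀ ε > (0 : ℝ), 0 < a ε)
    (hb : ∀ ε > (0 : ℝ), 2⁻¹ ≤ P {ω | ENNReal.ofReal (a ε) ≤ SS (X ω) ε}) (h : Seq P X θ a) :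
    2⁻¹ ≤ P {ω | (X ω).Nontrivial} := by
  have e0 : ∀ n : ℕ, 0 < 1 / ((n : ℝ) + 1) := fun n => by positivity
  obtain ⟨φ, -, D, -, hmet, hr⟩ := h _ e0 tendsto_one_div_add_atTop_nhds_zero_nat
  have h1 := ((hr 1 one_pos).2 (1 / 2) (by norm_num)).const_add (P {ω | (X ω).Nontrivial})
  rw [add_zero] at h1
  refine ge_of_tendsto' h1 fun n => (hb _ (e0 (φ n))).trans
    (le_trans (measure_mono_ae ?_) (measure_union_le _ _))
  filter_upwards [hmet] with ω h4 hS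
  by_contra hno
  have n1 : (X ω).Subsingleton := not_nontrivial_iff.1 fun k => hno (Or.inl k)
  have n3 : Ok _ _ _ _ _ := not_not.1 fun k => hno (Or.inr k)
  rw [dil_one] at n3
  have hA := ha _ (e0 (φ n))
  have m : SS (X ω) _ ≤ ENNReal.ofReal (a (1 / ((φ n : ℝ) + 1)) / 2) :=
    SS_le fun x hx y hy => (n3 x hx y hy).2.trans (ENNReal.ofReal_le_ofReal (by
      rw [(h4.eq_zero x hx y hy).2 (n1 hx hy)]
      linarith))
  have m1 := (ENNReal.ofReal_le_ofReal_iff (by positivity)).1 (le_trans hS m)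
  linarith

omit [IsProbabilityMeasure P] in
theorem exists_pt {O B1 B2 B3 B4 : Set Ω} {p : Ω → Prop} (hO : 2⁻¹ ≤ P O) (hp : ∀ᵐ ω ∂P, p ω)
    (h1 : P B1 ≤ 16⁻¹) (h2 : P B2 ≤ 16⁻¹) (h3 : P B3 ≤ 16⁻¹) (h4 : P B4 ≤ 16⁻¹) :
    ∃ ω ∈ O, p ω ∧ ω ∉ B1 ∧ ω ∉ B2 ∧ ω ∉ B3 ∧ ω ∉ B4 := by
  by_contra hc
  have m : P O ≤ P (B1 ∪ B2 ∪ (B3 ∪ B4)) := by
    refine measure_mono_ae ?_
    filter_upwards [hp] with ω k1 k2
    by_contra hno
    exact hc ⟨ω, k2, k1, fun k => hno (Or.inl (Or.inl k)), fun k => hno (Or.inl (Or.inr k)),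
      fun k => hno (Or.inr (Or.inl k)), fun k => hno (Or.inr (Or.inr k))⟩
  have m1 := (hO.trans m).trans ((measure_union_le _ _).trans (add_le_add
    ((measure_union_le _ _).trans (add_le_add h1 h2))
    ((measure_union_le _ _).trans (add_le_add h3 h4))))
  have m2 := ENNReal.toReal_mono (by simp) m1
  rw [ENNReal.toReal_add (by simp) (by simp), ENNReal.toReal_add (by simp) (by simp)] at m2
  norm_num at m2

theorem nrm (ha : ∀ ε > (0 : ℝ), 0 < a ε)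
    (hb : ∀ ε > (0 : ℝ), 2⁻¹ ≤ P {ω | ENNReal.ofReal (a ε) ≤ SS (X ω) ε}) (h : Seq P X θ a)
    (hX : ∀ᵐ ω ∂P, IsCompact (X ω) ∧ X ω ⊆ ball 0 1) : Nrm (fun ε => a ε / ε ^ 2) θ := by
  have h16 : (0 : ℝ≥0∞) < 16⁻¹ := by simp
  obtain ⟨t, ht, ε₀, hε₀, hT⟩ := tight ha h (hX.mono fun _ k => k.1) h16
  have hO := half ha hb h
  refine ⟨fun ε hε => div_pos (ha ε hε) (by positivity), 16 * t ^ 2, by nlinarith,
    fun M hM => ?_, min ε₀ 1, by positivity, fun ε hε => ?_⟩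
  · by_contra hc
    obtain ⟨e, e0, e1, hp⟩ := exists_seq fun _ => hc
    obtain ⟨φ, hφ, D, -, -, hr⟩ := h e e0 e1
    have hM0 : 0 < M := by linarith
    have hσ : 0 < M ^ θ := Real.rpow_pos_of_pos hM0 _
    have h1 := ENNReal.tendsto_nhds_zero.1 ((hr 1 one_pos).2 (1 / (8 * t)) (by positivity)) _ h16
    have h2 := ENNReal.tendsto_nhds_zero.1 ((hr M hM0).2 (M ^ θ / (8 * t)) (by positivity)) _ h16
    have h3 := (e1.comp hφ.tendsto_atTop).eventually (gt_mem_nhds hε₀)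
    obtain ⟨n, k1, k2, k3⟩ := (h1.and (h2.and h3)).exists
    simp only [dil_one] at k1
    have hε := e0 (φ n)
    have hε' : 0 < e (φ n) / M := by positivity
    obtain ⟨ω, m0, m1, m2, m3, m4, m5⟩ := exists_pt hO (hr M hM0).1 k1 k2 (hT _ ⟨hε, k3⟩)
      (hT _ ⟨hε', (div_le_self hε.le hM).trans_lt k3⟩)
    have hA := ha _ hε
    have hA' := ha _ hε'
    obtain ⟨r1, r2⟩ := ratio hM0 hσ hA hA' ht m0 m1 (not_not.1 m2) (not_not.1 m3) (not_not.1 m4)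
      (not_not.1 m5)
    refine hp (φ n) ?_
    set ε := e (φ n)
    have q1 : a (ε / M) / (ε / M) ^ 2 = M ^ 2 * a (ε / M) / ε ^ 2 := by field_simp
    have q2 : 0 < t ^ 2 * (M ^ 2 * a (ε / M)) := by positivity
    have q3 : 0 < t ^ 2 * (M ^ θ * a ε) := by positivity
    simp only [q1, ← mul_div_assoc]
    constructor <;> refine div_le_div_of_nonneg_right ?_ (by positivity) <;> linarith
  · have k := hT ε ⟨hε.1, hε.2.trans_le (min_le_left _ _)⟩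
    obtain ⟨ω, m0, m1, m2, -⟩ := exists_pt hO hX k k k k
    have hA := ha _ hε.1
    have hε0 := hε.1
    obtain ⟨r1, r2⟩ := absb hε.1 (hε.2.trans_le (min_le_right _ _)) hA ht m0 m1.2 (not_not.1 m2)
    have q : t ≤ t ^ 2 := by nlinarith
    refine ⟨?_, div_le_div_of_nonneg_right (by linarith) (by positivity)⟩
    rw [← mul_div_assoc, le_div_iff₀ (by positivity), one_mul]
    refine r1.trans (mul_le_mul_of_nonneg_right (by nlinarith) hA.le)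

omit [IsProbabilityMeasure P] in
theorem subseq (hXG : S_XG) (ha : ∀ ε > (0 : ℝ), 0 < a ε) (h : Seq P X θ a)
    (hX : ∀ᵐ ω ∂P, IsCompact (X ω)) {r : ℝ} (hr0 : 0 < r) {e : ℕ → ℝ} (e0 : ∀ n, 0 < e n)
    (e1 : Tendsto e atTop (𝓝 0)) : ∃ φ : ℕ → ℕ, StrictMono φ ∧
      ∀ᵐ ω ∂P, XU (dil r (X ω)) (fun ε => a ε / ε ^ 2) (e ∘ φ) ∧
        XL (dil r (X ω)) (fun ε => a ε / ε ^ 2) (e ∘ φ) := by
  obtain ⟨φ, hφ, D, -, hmet, hr⟩ := h e e0 e1
  obtain ⟨ψ, hψ, h1⟩ := extraction_forall_of_eventually fun k : ℕ =>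
    ENNReal.tendsto_nhds_zero.1 ((hr r hr0).2 (1 / ((k : ℝ) + 1)) (by positivity)) (2⁻¹ ^ k)
      (ENNReal.pow_pos (by simp) k)
  refine ⟨φ ∘ ψ, hφ.comp hψ, ?_⟩
  have h2 := ae_eventually_notMem (μ := P)
    (ne_top_of_le_ne_top (by simp) (ENNReal.tsum_le_tsum h1))
  filter_upwards [hX, hmet, (hr r hr0).1, h2] with ω k1 k2 k3 k4
  refine hXG _ (D (dil r (X ω))) a _ (k1.image (by fun_prop))
    (compat_dil k2 hr0 (Real.rpow_pos_of_pos hr0 _) k3) (fun j => ⟨e0 _, ha _ (e0 _)⟩)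
    fun η hη => ?_
  obtain ⟨j₀, hj⟩ := eventually_atTop.1 (k4.and
    (tendsto_one_div_add_atTop_nhds_zero_nat.eventually (gt_mem_nhds hη)))
  exact ⟨j₀, fun j k => Ok.mono (not_not.1 (hj j k).1) (ha _ (e0 _)) (hj j k).2.le⟩

end RatA

theorem p_RAT (hXG : S_XG) :
    S_RAT := by
  intro Ω _ P _ X θ ⟨a, ha, hs⟩ hX
  have h : RatA.Seq P X θ a := fun e e0 e1 => by
    obtain ⟨φ, hφ, D, h1, h2, h3⟩ := hs e e0 e1
    refine ⟨φ, hφ, D, fun K => h1 {p | K < p.2.2} (isOpen_lt continuous_const (by fun_prop)), h2,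
      fun r hr => ⟨(h3 r hr).1, fun η hη => ?_⟩⟩
    simpa only [RatA.Ok, not_forall, exists_prop] using (h3 r hr).2 η hη
  exact ⟨_, RatA.nrm (fun ε hε => (ha ε hε).1) (fun ε hε => (ha ε hε).2.2) h hX,
    fun r hr e e0 e1 => RatA.subseq hXG (fun ε hε => (ha ε hε).1) h (hX.mono fun _ k => k.1)
      hr e0 e1⟩

end Pool.Agent.P.MP_d66c6d_pr
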