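import Pool.Agent.P.MP_d66c6d_pr.A.Iface

/-! Step TREE of the carpet project. -/

namespace Pool.Agent.P.MP_d66c6d_pr

open MeasureTheory ProbabilityTheory Set Metric Filter Topology
open scoped ENNReal

namespace TreeA

variable {S : ℕ → Set (Set ℂ)} {U : Set ℂ}

theorem cle_sub {T : Set (Set ℂ)} {V W : Set ℂ} (h : W ∈ cleIn2 T V) : W ⊆ surrounded T V := by
  obtain ⟨⟨K, h1, h2, rfl⟩, -⟩ := h
  exact inter_subset_inter_right _ (subset_biUnion_of_mem (u := fun K =>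
    interior (fill (closure (cluster {K ∈ T | K ⊆ V} K)))) (show K ∈ {K ∈ T | K ⊆ V} from ⟨h1, h2⟩))

theorem cle_eq {T : Set (Set ℂ)} {V W W' : Set ℂ} (h : W ∈ cleIn2 T V) (h' : W' ∈ cleIn2 T V)
    {z : ℂ} (hz : z ∈ W) (hz' : z ∈ W') : W = W' :=
  Subset.antisymm (h'.2 W h.1 ⟨z, hz', hz⟩) (h.2 W' h'.1 ⟨z, hz, hz'⟩)

theorem mem_succ {k : ℕ} {W : Set ℂ} :
    W ∈ gen2 S U (k + 1) ↔ ∃ V ∈ gen2 S U k, W ∈ cleIn2 (S (k + 1)) V := by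
  simp [gen2]

theorem gen_eq : ∀ k, ∀ V ∈ gen2 S U k, ∀ W ∈ gen2 S U k, ∀ z ∈ V, z ∈ W → V = W
  | 0, _, h, _, h', _, hz, hz' => cle_eq h h' hz hz'
  | k + 1, _, h, _, h', z, hz, hz' => by
    obtain ⟨V, hV, h⟩ := mem_succ.1 h
    obtain ⟨W, hW, h'⟩ := mem_succ.1 h'
    have := gen_eq k V hV W hW z (cle_sub h hz).1 (cle_sub h' hz').1
    subst this
    exact cle_eq h h' hz hz'

theorem gen_anc {j k : ℕ} (h : j ≤ k) : ∀ V ∈ gen2 S U k, ∃ W ∈ gen2 S U j, V ⊆ W := by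
  induction h with
  | refl => exact fun V hV => ⟨V, hV, Subset.rfl⟩
  | step _ ih =>
    intro V hV
    obtain ⟨V', hV', h⟩ := mem_succ.1 hV
    obtain ⟨W, hW, h'⟩ := ih V' hV'
    exact ⟨W, hW, fun z hz => h' (cle_sub h hz).1⟩

theorem gen_congr {S' : ℕ → Set (Set ℂ)} : ∀ k, (∀ i ≤ k, S i = S' i) → gen2 S U k = gen2 S' U k
  | 0, h => by simp only [gen2, h 0 le_rfl]
  | k + 1, h => by
    simp only [gen2, h (k + 1) le_rfl, gen_congr k fun i hi => h i (hi.trans (Nat.le_succ k))]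

theorem first_eq {G : Set (Set ℂ)} {V : Set ℂ} (hV : IsFirst G V) :
    firstCarpet G = carpet G V := by
  ext z
  refine ⟨?_, fun hz => ⟨V, hV, hz⟩⟩
  rintro ⟨W, hW, hz⟩
  rwa [Subset.antisymm (hW.2.2.2 V hV.1 hV.2.1 hV.2.2.1) (hV.2.2.2 W hW.1 hW.2.1 hW.2.2.1)]

theorem str {ρ : ℝ} {k : ℕ} {V : Set ℂ} (h : Ek2 S U ρ k V) :
    Str2 (within 1 (nested2 S U)) V (S (k + 1)) := by
  obtain ⟨h1, h2, h3, -, h5⟩ := h
  have hF : IsFirst (within 1 (nested2 S U)) V := by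
    refine isFirst_within.2 ⟨mem_iUnion.2 ⟨k, h1⟩, h2, h3, fun W hW hW0 hW1 => ?_⟩
    obtain ⟨j, hj⟩ := mem_iUnion.1 hW
    rcases le_total j k with hjk | hjk
    · exact h5 j hjk W hj hW0 hW1
    · obtain ⟨W', hW', h⟩ := gen_anc hjk W hj
      rwa [gen_eq k V h1 W' hW' 0 h2 (h hW0)]
  have hG : cleIn2 (S (k + 1)) V ⊆ within 1 (nested2 S U) := fun W hW =>
    ⟨mem_iUnion.2 ⟨k + 1, mem_succ.2 ⟨V, h1, hW⟩⟩,
      fun z hz => h3 (subset_closure (cle_sub hW hz).1)⟩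
  have hC : carp (S (k + 1)) V ⊆ firstCarpet (within 1 (nested2 S U)) := by
    rw [first_eq hF]
    rintro z ⟨hz1, hz2⟩
    refine ⟨hz1, ?_⟩
    rintro ⟨W, ⟨hW, hWV⟩, hz⟩
    obtain ⟨j, hj⟩ := mem_iUnion.1 hW.1
    rcases le_or_gt j k with hjk | hjk
    · obtain ⟨W', hW', h⟩ := gen_anc hjk V h1
      have := gen_eq j W hj W' hW' z hz (h (hWV.1 hz))
      exact hWV.2 (this ▸ h)
    · obtain ⟨W', hW', h⟩ := gen_anc (show k + 1 ≤ j from hjk) W hj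
      obtain ⟨V', hV', h'⟩ := mem_succ.1 hW'
      have := gen_eq k V h1 V' hV' z (hWV.1 hz) (cle_sub h' (h hz)).1
      subst this
      exact hz2 ⟨W', h', h hz⟩
  refine ⟨hF, hG, hC, fun hV => Subset.antisymm ?_ hC⟩
  rw [first_eq hF]
  rintro z ⟨hz1, hz2⟩
  refine ⟨hz1, ?_⟩
  rintro ⟨W, hW, hz⟩
  exact hz2 ⟨W, ⟨hG hW, ssubset_iff_subset_ne.2
    ⟨fun x hx => (cle_sub hW hx).1, fun e => hV (e ▸ hW)⟩⟩, hz⟩

end TreeA

open TreeA in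
theorem p_TREE :
    S_TREE := by
  refine ⟨fun T V W hW => ⟨cle_sub hW, fun W' hW' ⟨z, hz, hz'⟩ => cle_eq hW hW' hz hz'⟩,
    fun S U ρ => ⟨?_, ?_, fun k V h => str h⟩⟩
  · rintro S' k V h ⟨h1, h2, h3, h4, h5⟩
    refine ⟨TreeA.gen_congr k h ▸ h1, h2, h3, h4, fun j hj W hW => h5 j hj W ?_⟩
    rwa [TreeA.gen_congr j fun i hi => h i (hi.trans hj)]
  · rintro V ⟨h1, h2, h3, h4⟩ hρ
    obtain ⟨k, hk⟩ := mem_iUnion.1 h1
    exact ⟨k, hk, h2, h3, hρ, fun j _ W hW => h4 W (mem_iUnion.2 ⟨j, hW⟩)⟩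

end Pool.Agent.P.MP_d66c6d_pr
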