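import Pool.Agent.P.MP_d66c6d_pr.A.Iface
import Pool.Agent.P.MP_d66c6d_pr.F.Iface

/-! Step TRF of the carpet project. -/

namespace Pool.Agent.P.MP_d66c6d_pr

open MeasureTheory ProbabilityTheory Set Metric Filter Topology
open scoped ENNReal

theorem p_TRF (hTRFO : S_TRFO) (hTRANS : S_TRANS) (hMUK : S_MUK) :
    S_TRF := by
  intro ν hν κ Ω _ _ P Γ hΓ ρ 𝒢 h1 h2 τ hτ
  obtain ⟨Ω₀, _, P₀, N, hN, H⟩ := hTRFO ν κ Ω P Γ hΓ
  obtain ⟨V, hV1, hV2, hV3, hV4⟩ := H ρ 𝒢 h1 h2 τ hτ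
  refine ⟨V, hV1, hV2, hV3, fun E hE hG => ?_⟩
  have := (hMUK ν hν).1
  have hs : SigmaFinite (intensity κ • loopMeasure ν) := by
    have h3 : intensity κ ≠ ∞ := ENNReal.ofReal_ne_top
    rw [← ENNReal.coe_toNNReal h3, ← ENNReal.smul_def]
    infer_instance
  have hT := hTRANS Ω₀ Lp Lp P₀ _ N id hs hN measurable_id
  rw [Measure.map_id] at hT
  rw [← hT.measure_preimage hE.nullMeasurableSet]
  refine hV4 _ (hT.measurable hE) fun ω hω G hS => hG _ hω G ?_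
  simpa only [Set.image_id] using hS

end Pool.Agent.P.MP_d66c6d_pr
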