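import Pool.Agent.P.MP_d66c6d_pr.A.Iface

/-! Step TRFO of the carpet project. -/

namespace Pool.Agent.P.MP_d66c6d_pr

open MeasureTheory ProbabilityTheory Set Metric Filter Topology
open scoped ENNReal

namespace TrfoA

theorem doob2 {Ω : Type} [MeasurableSpace Ω] (P : Measure Ω) [IsProbabilityMeasure P]
    (E : ℕ → Set (ℕ → Ω)) (Bad : Set (ℕ → Ω)) (τ : ℝ≥0∞)
    (hE : ∀ k, ∀ ω ∈ E k, ∃ A, MeasurableSet A ∧ τ ≤ P A ∧
      ∀ ω', (∀ i ≤ k, ω i = ω' i) → ω' (k + 1) ∈ A → ω' ∈ Bad) :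
    τ * Measure.infinitePi (fun _ : ℕ => P) (⋃ k, E k) ≤
      Measure.infinitePi (fun _ : ℕ => P) Bad := by
  set μ := Measure.infinitePi (fun _ : ℕ => P) with hμ
  set B := toMeasurable μ Bad with hB
  have hBm : MeasurableSet B := measurableSet_toMeasurable _ _
  let f : ℕ → (ℕ → Ω) → ℝ≥0∞ := fun k ω => μ (Prod.mk ω ⁻¹' (splice k ⁻¹' B))
  have hf : ∀ k, Measurable (f k) := fun k =>
    measurable_measure_prodMk_left (meas_splice k hBm)
  let T : ℕ → Set (ℕ → Ω) := fun k => {ω | τ ≤ f k ω}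
  have hT : ∀ k, MeasurableSet (T k) := fun k => measurableSet_le measurable_const (hf k)
  have hET : ∀ k, E k ⊆ T k := by
    intro k ω hω
    obtain ⟨A, hA, hτ, hb⟩ := hE k ω hω
    have h1 : μ ((fun ω' : ℕ → Ω => ω' (k + 1)) ⁻¹' A) = P A :=
      (measurePreserving_eval_infinitePi (fun _ : ℕ => P) (k + 1)).measure_preimage
        hA.nullMeasurableSet
    change τ ≤ f k ω
    refine hτ.trans ?_
    rw [← h1]
    refine measure_mono fun ω' hω' => subset_toMeasurable _ _ (hb _ ?_ ?_)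
    · exact fun i hi => by simp [splice, hi]
    · simpa [splice] using hω'
  have hdep : ∀ j k, j ≤ k → ∀ ω ω', f j (splice k (ω, ω')) = f j ω := by
    intro j k hjk ω ω'
    have : ∀ ω'', splice j (splice k (ω, ω'), ω'') = splice j (ω, ω'') := by
      intro ω''
      funext i
      simp only [splice]
      split_ifs with h1 h2
      · rfl
      · exact (h2 (h1.trans hjk)).elim
      · rfl
    simp only [f]
    congr 1
    ext ω''
    simp only [mem_preimage, this]
  have hD : ∀ k, MeasurableSet (disjointed T k) := MeasurableSet.disjointed hT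
  have key : ∀ k, τ * μ (disjointed T k) ≤ μ (B ∩ disjointed T k) := by
    intro k
    conv_rhs => rw [hμ, ← map_splice P k, Measure.map_apply (meas_splice k) (hBm.inter (hD k)),
      Measure.prod_apply (meas_splice k (hBm.inter (hD k)))]
    rw [← lintegral_indicator_const (hD k)]
    refine lintegral_mono fun ω => ?_
    by_cases hω : ω ∈ disjointed T k
    · rw [indicator_of_mem hω]
      refine le_trans (disjointed_subset T k hω) (measure_mono fun ω' hω' => ⟨hω', ?_⟩)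
      rw [disjointed_eq_inter_compl] at hω ⊢
      refine ⟨?_, ?_⟩
      · have := hω.1
        simp only [T, mem_ofPred_eq] at this ⊢
        rwa [hdep k k le_rfl]
      · have := hω.2
        simp only [T, mem_iInter, mem_compl_iff, mem_ofPred_eq] at this ⊢
        intro j hj
        rw [hdep j k hj.le]
        exact this j hj
    · rw [indicator_of_notMem hω]
      exact zero_le
  calc τ * μ (⋃ k, E k) ≤ τ * μ (⋃ k, disjointed T k) := by
        rw [iUnion_disjointed]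
        exact mul_le_mul_right (measure_mono (iUnion_mono hET)) _
    _ = ∑' k, τ * μ (disjointed T k) := by
        rw [measure_iUnion (disjoint_disjointed T) hD, ENNReal.tsum_mul_left]
    _ ≤ ∑' k, μ (B ∩ disjointed T k) := ENNReal.tsum_le_tsum key
    _ = μ (⋃ k, B ∩ disjointed T k) := by
        rw [measure_iUnion _ fun k => hBm.inter (hD k)]
        exact fun i j hij => ((disjoint_disjointed T) hij).mono inter_subset_right
          inter_subset_right
    _ ≤ μ B := measure_mono (iUnion_subset fun _ => inter_subset_left)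
    _ = _ := measure_toMeasurable _

end TrfoA

theorem p_TRFO (hTREE : S_TREE) :
    S_TRFO := by
  intro ν κ Ω _ _ P Γ hΓ
  obtain ⟨hP, hJ, Ω₀, _, _, P₀, N, hN, hc⟩ := hΓ
  refine ⟨Ω₀, inferInstance, P₀, N, hN, fun ρ 𝒢 h𝒢 hne τ hτ => ?_⟩
  have := hN.prob
  set μ := Measure.infinitePi (fun _ : ℕ => P₀) with hμ
  have tr : ∀ η > (0 : ℝ≥0∞), ∃ R : ℝ, ∀ A : Set (Set (Set ℂ)),
      P {ω | within 1 (Γ ω) ∈ A} ≤
        μ {ω | within 1 (nested2 (fun k => trace '' N (ω k)) (ball 0 R)) ∈ A} + η ∧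
      μ {ω | within 1 (nested2 (fun k => trace '' N (ω k)) (ball 0 R)) ∈ A} ≤
        P {ω | within 1 (Γ ω) ∈ A} + η := by
    intro η hη
    obtain ⟨R, hR⟩ := hc 1 one_pos η hη
    obtain ⟨Q, h1, h2, h3⟩ := hR R le_rfl
    have : IsProbabilityMeasure Q := ⟨by
      rw [← preimage_univ (f := Prod.fst), ← Measure.map_apply measurable_fst MeasurableSet.univ,
        h1, measure_univ]⟩
    refine ⟨R, fun A => ?_⟩
    have := transfer Q (fun ω => within 1 (Γ ω))
      (fun ω => within 1 (nested2 (fun k => trace '' N (ω k)) (ball 0 R))) A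
    rw [h1, h2] at this
    exact ⟨this.1.trans (add_le_add_right h3 _), this.2.trans (add_le_add_right h3 _)⟩
  by_contra hn
  push Not at hn
  refine mul_ne_zero (a := min τ 1) (by simp [hτ]) hne ?_
  refine le_antisymm (ENNReal.le_of_forall_pos_le_add fun η hη _ => ?_) zero_le
  obtain ⟨R, hR⟩ := tr (η / 2) (ENNReal.half_pos (by exact_mod_cast hη.ne'))
  have h1 := (hR {G | ∃ V, IsJordan V ∧ IsFirst G V ∧ ball 0 ρ ⊆ V}).1
  have h2 := (hR 𝒢ᶜ).2
  simp only [mem_ofPred_eq, isFirst_within] at h1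
  have h0 : P {ω | within 1 (Γ ω) ∈ 𝒢ᶜ} = 0 := ae_iff.1 h𝒢
  rw [h0, zero_add] at h2
  have h3 := TrfoA.doob2 P₀
    (fun k => {ω | ∃ V, IsJordan V ∧ Ek2 (fun k => trace '' N (ω k)) (ball 0 R) ρ k V})
    {ω | within 1 (nested2 (fun k => trace '' N (ω k)) (ball 0 R)) ∈ 𝒢ᶜ} (min τ 1) (by
      rintro k ω ⟨V, hV, hE⟩
      obtain ⟨A, hA, hb, hlt⟩ := hn V hV hE.2.2.2.1 hE.2.2.1
      refine ⟨A, hA, (min_le_left _ _).trans hlt.le, fun ω' e hω' => hb _ hω' _ ?_⟩
      exact (hTREE.2 _ _ ρ).2.2 k V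
        ((hTREE.2 _ _ ρ).1 (fun k => trace '' N (ω' k)) k V (fun i hi => by rw [e i hi]) hE))
  have h4 : μ {ω | ∃ V, IsJordan V ∧ IsFirst (nested2 (fun k => trace '' N (ω k)) (ball 0 R)) V ∧
      ball 0 ρ ⊆ V} ≤
      μ (⋃ k, {ω | ∃ V, IsJordan V ∧ Ek2 (fun k => trace '' N (ω k)) (ball 0 R) ρ k V}) := by
    refine measure_mono ?_
    rintro ω ⟨V, hV, h5, h6⟩
    obtain ⟨k, hk⟩ := (hTREE.2 _ _ ρ).2.1 V h5 h6
    exact mem_iUnion.2 ⟨k, V, hV, hk⟩
  have h5 : P {ω | ∃ V, IsFirst (Γ ω) V ∧ ball 0 ρ ⊆ V} ≤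
      P {ω | ∃ V, IsJordan V ∧ IsFirst (Γ ω) V ∧ ball 0 ρ ⊆ V} := by
    refine measure_mono_ae ?_
    filter_upwards [hJ] with ω hω ⟨V, h6, h7⟩
    exact ⟨V, hω V h6.1, h6, h7⟩
  calc min τ 1 * P {ω | ∃ V, IsFirst (Γ ω) V ∧ ball 0 ρ ⊆ V}
      ≤ min τ 1 * (μ (⋃ k, {ω | ∃ V, IsJordan V ∧
          Ek2 (fun k => trace '' N (ω k)) (ball 0 R) ρ k V}) + η / 2) :=
        mul_le_mul_right (h5.trans (h1.trans (add_le_add_left h4 _))) _
    _ ≤ η / 2 + η / 2 := by
        rw [mul_add]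
        exact add_le_add (h3.trans h2) (mul_le_of_le_one_left' (min_le_right _ _))
    _ = 0 + η := by rw [ENNReal.add_halves, zero_add]

end Pool.Agent.P.MP_d66c6d_pr
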