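import Pool.Agent.P.MP_d66c6d_pr.A.Iface
import Pool.Agent.P.MP_d66c6d_pr.Mfpp

/-! Step XG of the carpet project. -/

namespace Pool.Agent.P.MP_d66c6d_pr

open MeasureTheory ProbabilityTheory Set Metric Filter Topology
open scoped ENNReal

namespace XgA

theorem exists_upper {X : Set ℂ} {d : ℂ → ℂ → ℝ} (h : IsCompatMetric X d) (hX : IsCompact X)
    {τ : ℝ} (hτ : 0 < τ) : ∃ s > (0 : ℝ), ∀ u ∈ X, ∀ v ∈ X, dist u v < s → d u v < τ := by
  refine hX.induction_on (p := fun S => ∃ s > (0 : ℝ), ∀ u ∈ S, ∀ v ∈ X, dist u v < s → d u v < τ)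
    ⟨1, one_pos, by simp⟩ ?_ ?_ ?_
  · rintro s t hst ⟨σ, h1, h2⟩
    exact ⟨σ, h1, fun u hu => h2 u (hst hu)⟩
  · rintro s t ⟨σ, h1, h2⟩ ⟨σ', h1', h2'⟩
    refine ⟨min σ σ', lt_min h1 h1', ?_⟩
    rintro u (hu | hu) v hv h3
    · exact h2 u hu v hv (h3.trans_le (min_le_left _ _))
    · exact h2' u hu v hv (h3.trans_le (min_le_right _ _))
  · intro z hz
    obtain ⟨s1, hs1, h1⟩ := h.top z hz (τ / 2) (by positivity)
    refine ⟨X ∩ ball z (s1 / 2), inter_mem_nhdsWithin _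
      (ball_mem_nhds _ (by positivity)), s1 / 2, by positivity, fun u hu v hv huv => ?_⟩
    have h3 := mem_ball'.1 hu.2
    have h4 := (h1 u hu.1).1 (by linarith)
    have h5 := (h1 v hv).1 (by linarith [dist_triangle z u v])
    have h6 := h.triangle u hu.1 z hz v hv
    rw [h.symm u hu.1 z hz] at h6
    linarith

theorem mfpp_le_br {X : Set ℂ} (ε : ℝ) (γ : Br) (h : range γ ⊆ X) :
    mfpp ε X (γ 0) (γ 1) ≤ volume (thickening ε (range γ)) :=
  iInf₂_le_of_le (⟨γ, rfl, rfl⟩ : Path (γ 0) (γ 1)) h le_rfl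

end XgA

open XgA

theorem p_XG (hCOV : S_COV) :
    S_XG := by
  intro X d a e hX hd hpos hconv
  constructor
  · intro ρ hρ
    obtain ⟨τ, hτ, hl⟩ := hd.exists_lower hX (half_pos hρ)
    obtain ⟨s, hs, hu⟩ := exists_upper hd hX (τ := τ / 4) (by positivity)
    obtain ⟨j₀, hj⟩ := hconv (τ / 8) (by positivity)
    refine ⟨s, hs, τ, j₀, fun j hjj x hx y hy hxy => ?_⟩
    obtain ⟨he, ha⟩ := hpos j
    have h1 : mfpp (e j) X x y < ENNReal.ofReal (a (e j) * (τ / 2)) := by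
      refine (hj j hjj x hx y hy).2.trans_lt ((ENNReal.ofReal_lt_ofReal_iff (by positivity)).2 ?_)
      exact mul_lt_mul_of_pos_left (by linarith [hu x hx y hy hxy]) ha
    obtain ⟨γ, h2⟩ := iInf_lt_iff.1 h1
    obtain ⟨hγ, h3⟩ := iInf_lt_iff.1 h2
    refine ⟨γ.toContinuousMap, γ.source, γ.target, subset_inter hγ ?_, ?_⟩
    · rintro _ ⟨u, rfl⟩
      by_contra hb
      rw [mem_ball', not_lt] at hb
      obtain ⟨β, b0, b1, b2⟩ := exists_br_piece γ.toContinuousMap (show 0 ≤ u from u.2.1)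
      have hsub : range β ⊆ range γ := by
        rw [b2]
        exact image_subset_range _ _
      have hux : γ u ∈ X := hγ ⟨u, rfl⟩
      have h4 := mfpp_le_br (e j) β (hsub.trans hγ)
      rw [b0, b1] at h4
      have e0 : γ.toContinuousMap 0 = x := γ.source
      rw [e0] at h4
      have h5 := ((hj j hjj x hx _ hux).1.trans h4).trans
        (measure_mono (thickening_subset_of_subset _ hsub))
      have h6 := (ENNReal.ofReal_lt_ofReal_iff (by positivity)).1 (h5.trans_lt h3)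
      have h7 : τ ≤ d x (γ u) := by
        by_contra h8
        have h9 := hl x hx _ hux (not_le.1 h8)
        have h10 : ρ ≤ dist x (γ u) := hb
        linarith
      have h8 := lt_of_mul_lt_mul_left h6 ha.le
      linarith
    · have h4 := (hCOV (e j) (τ / 2 * (a (e j) / e j ^ 2)) (range γ) he).2.1 (by positivity)
        (h3.le.trans (le_of_eq (by congr 1; field_simp)))
      rwa [show 2 * (τ / 2 * (a (e j) / e j ^ 2)) = τ * (a (e j) / e j ^ 2) by ring] at h4
  · intro ρ hρ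
    obtain ⟨τ, hτ, hl⟩ := hd.exists_lower hX (half_pos hρ)
    obtain ⟨j₀, hj⟩ := hconv (τ / 2) (by positivity)
    refine ⟨τ / 30, by positivity, j₀, fun j hjj γ hγ hρ' hc => ?_⟩
    obtain ⟨he, ha⟩ := hpos j
    have h0 : γ 0 ∈ X := hγ ⟨0, rfl⟩
    have h1 : γ 1 ∈ X := hγ ⟨1, rfl⟩
    have h2 := ((hj j hjj _ h0 _ h1).1.trans (mfpp_le_br (e j) γ hγ)).trans
      ((hCOV (e j) _ (range γ) he).1 hc)
    have h3 := (ENNReal.ofReal_le_ofReal_iff (by positivity)).1 h2
    have h7 : τ ≤ d (γ 0) (γ 1) := by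
      by_contra h8
      have h9 := hl _ h0 _ h1 (not_le.1 h8)
      linarith
    have h4 : 13 * (τ / 30 * (a (e j) / e j ^ 2)) * e j ^ 2 = a (e j) * (13 * τ / 30) := by
      field_simp
    rw [h4] at h3
    have h8 := le_of_mul_le_mul_left h3 ha
    linarith

end Pool.Agent.P.MP_d66c6d_pr
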